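import Pool.Agent.H43.UB.GAP
import Pool.Agent.H43.UB.NEA
import Pool.Agent.H43.UB.BRL

/-!
# THEOREM UD: paths in the good set over open sets, and compact parts of the good set at the finite stage

`path`. Let `T = connectedComponentIn {s ∈ Sc | Fh s ∈ V} s0` (open, connected: `Sc` is open, `Fh` continuous: `fh_diff`; `IsOpen.connectedComponentIn`). `Fh '' T` is open (`Fh` is an open map: `fh_der`, `HasStrictDerivAt.map_nhds_eq` or `uh_open` locally) and contained in `V \ Ph`. It is closed in `V \ Ph`: let `w ∈ V \ Ph` be in the closure of `Fh '' T`, `ball w t ⊆ V \ Ph` (`ph_closed`), `s2 ∈ T` with `‖Fh s2 - w‖ < t / 3`; `brl` at `s2` with the radius `2 t / 3`: `g` on `ball (Fh s2) (2 t / 3) ⊆ ball w t`, `g (Fh s2) = s2`, values in `Sc` with `Fh (g u) = u ∈ V`: `g '' ball ..` is preconnected, contains `s2`, so it is in `T` and `w = Fh (g w) ∈ Fh '' T`. `V \ Ph`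 is preconnected, so `Fh '' T = V \ Ph`. So there is `s1 ∈ T` with `Fh s1 = w1`. `T` is open and connected, so path connected (`IsOpen.isConnected_iff_isPathConnected`, `IsPathConnected.joinedIn`): `K` = the image of a path from `s0` to `s1` in `T`.
`kin`. The function `m s = ‖u‖`, `u ∈ ball 0 1` with `ψ0 u = Fh s`, is `< 1`; there is `ρ' < 1` with `Fh '' K ⊆ ψ0 '' ball 0 ρ'`: `Fh '' K` is compact (`fh_diff`), covered by the increasing open sets `ψ0 '' ball 0 t`, `t < 1` (`uh_open`); `0 < ρ'`. Suppose the claim is false for `ρ'`: for almost all `n` there is a bad point `s n ∈ K`; `s n → s ∈ K` along `𝒰` (`IsCompact.ultrafilter_le_nhds`); `near` (`NEA`, `fh_gd`): `s n ∈ D n` and `F n (s n) → Fh s = ψ0 u0`, `‖u0‖ < ρ'`; `uh_hit` at `u0` (`ψ0` is not locally constant: `uh_der`) with `ε = ρ' - ‖u0‖`: `F n (s n) = ψ n u`, `‖u‖ < ρ'`: the points are not bad.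
-/

set_option autoImplicit false

open Filter Topology Metric Set MeasureTheory

namespace Pool.Agent.H31.IN

open Pool.Agent.H56.UD Pool.Agent.H43.UB

variable {𝒰 : Ultrafilter ℕ} {F : ℕ → ℂ → ℂ} {D P : ℕ → Set ℂ} {θ C : ℝ}

theorem path (h : LS 𝒰 F D P θ C) {sb s0 w1 : ℂ} {V : Set ℂ} (hV : IsOpen V) (hVp : IsPreconnected (V \ Ph 𝒰 P))
    (hs0 : s0 ∈ Sc 𝒰 F D P sb) (h0 : Fh 𝒰 F D P s0 ∈ V) (hw1 : w1 ∈ V) (hw2 : w1 ∉ Ph 𝒰 P) :
    ∃ K : Set ℂ, IsCompact K ∧ IsPreconnected K ∧ K ⊆ Sc 𝒰 F D P sb ∧ s0 ∈ K ∧ (∀ s ∈ K, Fh 𝒰 F D P s ∈ V) ∧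
      ∃ s1 ∈ K, Fh 𝒰 F D P s1 = w1 := by
  have hc : ContinuousOn (Fh 𝒰 F D P) (Sc 𝒰 F D P sb) :=
    (fh_diff h).continuousOn.mono (sc_sub sb)
  obtain ⟨O, hOdef⟩ : ∃ O : Set ℂ, O = Sc 𝒰 F D P sb ∩ Fh 𝒰 F D P ⁻¹' V := ⟨_, rfl⟩
  have hO : IsOpen O := by
    rw [hOdef]
    exact hc.isOpen_inter_preimage (sc_open h sb) hV
  have hOs : ∀ s ∈ O, s ∈ Sc 𝒰 F D P sb ∧ Fh 𝒰 F D P s ∈ V := by
    intro s hs
    rw [hOdef] at hs
    exact hs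
  have hs0O : s0 ∈ O := by
    rw [hOdef]
    exact ⟨hs0, h0⟩
  obtain ⟨T, hT⟩ : ∃ T : Set ℂ, T = connectedComponentIn O s0 := ⟨_, rfl⟩
  have hTo : IsOpen T := by
    rw [hT]
    exact hO.connectedComponentIn
  have hTp : IsPreconnected T := by
    rw [hT]
    exact isPreconnected_connectedComponentIn
  have hs0T : s0 ∈ T := by
    rw [hT]
    exact mem_connectedComponentIn hs0O
  have hTO : T ⊆ O := by
    rw [hT]
    exact connectedComponentIn_subset _ _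
  have hAo : IsOpen (Fh 𝒰 F D P '' T) := by
    rw [isOpen_iff_mem_nhds]
    rintro _ ⟨s, hs, rfl⟩
    have hsg : s ∈ Sg 𝒰 F D P := sc_sub sb (hOs s (hTO hs)).1
    have h1 : AnalyticAt ℂ (Fh 𝒰 F D P) s := (fh_diff h).analyticAt ((sg_open h).mem_nhds hsg)
    have h2 := h1.hasStrictDerivAt.map_nhds_eq (fh_der h hsg)
    rw [← h2]
    exact image_mem_map (hTo.mem_nhds hs)
  have hVo : IsOpen (V \ Ph 𝒰 P) := hV.sdiff ph_closed
  have hsub : V \ Ph 𝒰 P ⊆ Fh 𝒰 F D P '' T := by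
    refine hVp.subset_of_closure_inter_subset hAo
      ⟨Fh 𝒰 F D P s0, ⟨h0, (fh_gd (sc_sub sb hs0)).1⟩, s0, hs0T, rfl⟩ ?_
    rintro w ⟨hwc, hwV⟩
    obtain ⟨t, ht, hball⟩ := Metric.isOpen_iff.1 hVo w hwV
    obtain ⟨_, ⟨s2, hs2, rfl⟩, hd⟩ := Metric.mem_closure_iff.1 hwc (t / 3) (by positivity)
    have hbb : ball (Fh 𝒰 F D P s2) (2 * t / 3) ⊆ ball w t := by
      intro u hu
      rw [mem_ball] at hu ⊢
      have h3 := dist_triangle u (Fh 𝒰 F D P s2) w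
      rw [dist_comm (Fh 𝒰 F D P s2) w] at h3
      linarith
    obtain ⟨g, hg1, hg2, hg3⟩ := brl h (hOs s2 (hTO hs2)).1 (ρ := 2 * t / 3) (by positivity)
      (Set.disjoint_left.2 fun u hu hu2 => (hball (hbb hu)).2 hu2)
    have hpre : IsPreconnected (g '' ball (Fh 𝒰 F D P s2) (2 * t / 3)) :=
      (convex_ball _ _).isPreconnected.image g hg1.continuousOn
    have hsO : g '' ball (Fh 𝒰 F D P s2) (2 * t / 3) ⊆ O := by
      rintro _ ⟨u, hu, rfl⟩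
      rw [hOdef]
      refine ⟨(hg3 u hu).1, ?_⟩
      rw [mem_preimage, (hg3 u hu).2]
      exact (hball (hbb hu)).1
    have hs2m : s2 ∈ g '' ball (Fh 𝒰 F D P s2) (2 * t / 3) :=
      ⟨_, mem_ball_self (by positivity), hg2⟩
    have hsT : g '' ball (Fh 𝒰 F D P s2) (2 * t / 3) ⊆ T := by
      have h4 := hpre.subset_connectedComponentIn hs2m hsO
      rw [hT] at hs2 ⊢
      rwa [connectedComponentIn_eq hs2]
    have hwb : w ∈ ball (Fh 𝒰 F D P s2) (2 * t / 3) := by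
      rw [mem_ball]
      linarith
    exact ⟨g w, hsT ⟨w, hwb, rfl⟩, (hg3 w hwb).2⟩
  obtain ⟨s1, hs1, he⟩ := hsub ⟨hw1, hw2⟩
  have hTc : IsPathConnected T := hTo.isConnected_iff_isPathConnected.1 ⟨⟨s0, hs0T⟩, hTp⟩
  obtain ⟨γ, hγ⟩ := hTc.joinedIn s0 hs0T s1 hs1
  refine ⟨range γ, isCompact_range γ.continuous, isPreconnected_range γ.continuous, ?_, ⟨0, γ.source⟩,
    ?_, s1, ⟨1, γ.target⟩, he⟩
  · rintro _ ⟨x, rfl⟩
    exact (hOs _ (hTO (hγ x))).1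
  · rintro _ ⟨x, rfl⟩
    exact (hOs _ (hTO (hγ x))).2

theorem kin (h : LS 𝒰 F D P θ C) {ψ : ℕ → ℂ → ℂ} {ψ0 : ℂ → ℂ} (hψ : ∀ᶠ n in (𝒰 : Filter ℕ), DifferentiableOn ℂ (ψ n) (ball 0 1))
    (hψ0 : TendstoLocallyUniformlyOn ψ ψ0 (𝒰 : Filter ℕ) (ball 0 1)) (hi : InjOn ψ0 (ball 0 1)) {K : Set ℂ} (hK : IsCompact K)
    (hKs : K ⊆ Sg 𝒰 F D P) (hKV : ∀ s ∈ K, Fh 𝒰 F D P s ∈ ψ0 '' ball 0 1) :
    ∃ ρ' : ℝ, 0 < ρ' ∧ ρ' < 1 ∧ ∀ᶠ n in (𝒰 : Filter ℕ), ∀ s ∈ K, s ∈ D n ∧ ∃ u : ℂ, ‖u‖ ≤ ρ' ∧ F n s = ψ n u := by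
  have hd0 : DifferentiableOn ℂ ψ0 (ball 0 1) := hψ0.differentiableOn hψ isOpen_ball
  have hKc : IsCompact (Fh 𝒰 F D P '' K) := hK.image_of_continuousOn ((fh_diff h).continuousOn.mono hKs)
  obtain ⟨m, hm⟩ : ∃ m : ℕ, Fh 𝒰 F D P '' K ⊆ ψ0 '' ball 0 (1 - 1 / ((m : ℝ) + 2)) := by
    refine hKc.elim_directed_cover (fun m : ℕ => ψ0 '' ball 0 (1 - 1 / ((m : ℝ) + 2))) (fun m => ?_) ?_ ?_
    · refine uh_open isOpen_ball hd0 hi isOpen_ball (ball_subset_ball ?_)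
      have : (0 : ℝ) < 1 / ((m : ℝ) + 2) := by positivity
      linarith
    · rintro _ ⟨s, hs, rfl⟩
      obtain ⟨u, hu, hus⟩ := hKV s hs
      rw [mem_ball_zero_iff] at hu
      obtain ⟨m, hm⟩ := exists_nat_one_div_lt (sub_pos.2 hu)
      refine mem_iUnion.2 ⟨m, u, ?_, hus⟩
      rw [mem_ball_zero_iff]
      have h1 : 1 / ((m : ℝ) + 2) ≤ 1 / ((m : ℝ) + 1) :=
        one_div_le_one_div_of_le (by positivity) (by linarith)
      linarith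
    · refine Monotone.directed_le fun m m' hmm => ?_
      refine image_mono (ball_subset_ball ?_)
      have h1 : 1 / ((m' : ℝ) + 2) ≤ 1 / ((m : ℝ) + 2) :=
        one_div_le_one_div_of_le (by positivity) (by
          have : (m : ℝ) ≤ m' := by exact_mod_cast hmm
          linarith)
      linarith
  obtain ⟨ρ', hρ'⟩ : ∃ ρ' : ℝ, ρ' = 1 - 1 / ((m : ℝ) + 2) := ⟨_, rfl⟩
  rw [← hρ'] at hm
  have h2 : (0 : ℝ) < 1 / ((m : ℝ) + 2) := by positivity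
  have h3 : 1 / ((m : ℝ) + 2) < 1 := by
    rw [div_lt_one (by positivity)]
    have : (0 : ℝ) ≤ m := Nat.cast_nonneg m
    linarith
  refine ⟨ρ', by linarith, by linarith, ?_⟩
  by_contra hcon
  rw [← Ultrafilter.eventually_not] at hcon
  have hz : ∀ n, ∃ z : ℂ, (¬ ∀ s ∈ K, s ∈ D n ∧ ∃ u : ℂ, ‖u‖ ≤ ρ' ∧ F n s = ψ n u) →
      z ∈ K ∧ ¬ (z ∈ D n ∧ ∃ u : ℂ, ‖u‖ ≤ ρ' ∧ F n z = ψ n u) := by
    intro n
    by_cases hn : ∀ s ∈ K, s ∈ D n ∧ ∃ u : ℂ, ‖u‖ ≤ ρ' ∧ F n s = ψ n u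
    · exact ⟨0, fun h4 => absurd hn h4⟩
    · have h5 := hn
      rw [not_forall] at h5
      obtain ⟨z, h5⟩ := h5
      rw [Classical.not_imp] at h5
      exact ⟨z, fun _ => h5⟩
  choose z hz using hz
  have hzK : ∀ᶠ n in (𝒰 : Filter ℕ), z n ∈ K := hcon.mono fun n hn => (hz n hn).1
  obtain ⟨s, hs, hzs⟩ := hK.ultrafilter_le_nhds (𝒰.map z) (by
    rw [Ultrafilter.coe_map, le_principal_iff]
    exact hzK)
  have hzt : Tendsto z (𝒰 : Filter ℕ) (𝓝 s) := hzs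
  obtain ⟨h6, h7⟩ := near h (fh_gd (hKs hs)) hzt
  obtain ⟨u0, hu0, hus⟩ := hm ⟨s, hs, rfl⟩
  rw [mem_ball_zero_iff] at hu0
  have hu1 : u0 ∈ ball (0 : ℂ) 1 := by
    rw [mem_ball_zero_iff]
    linarith
  rw [← hus] at h7
  have h8 := uh_hit 𝒰 isOpen_ball hψ hψ0 hu1 (fun he => by
    have h9 : deriv ψ0 u0 = deriv (fun _ => ψ0 u0) u0 := Filter.EventuallyEq.deriv_eq he
    rw [deriv_const] at h9
    exact uh_der isOpen_ball hd0 hi hu1 h9) h7 (ε := ρ' - ‖u0‖) (by linarith)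
  obtain ⟨n, hn1, hn2, hn3⟩ := (hcon.and (h6.and h8)).exists
  obtain ⟨u, ⟨hu2, -⟩, hu3⟩ := hn3
  refine (hz n hn1).2 ⟨hn2, u, ?_, hu3.symm⟩
  rw [mem_ball, dist_eq_norm] at hu2
  have h10 := norm_add_le (u - u0) u0
  rw [sub_add_cancel] at h10
  linarith

end Pool.Agent.H31.IN
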