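import Pool.Agent.H31.IN.Fra
import Pool.Agent.H31.IN.Pth
import Pool.Agent.H43.UB.CLT
import Pool.Agent.H43.UB.DCK
import Pool.Agent.H65.UB.Cnn

/-!
# THEOREM UD, INI: lifts of collars in the component of the good point do not close after two turns

PROOF of `ncl`. `lsx := ls1 ..`. Write `F, D, P'` for `F1 .. L, D1 .., P1 .. L`, `Ph` for the limit set of `P'`, `R k = Rl L r k`.
(1) `gap_lim` (`x n = 0`): `ψ k → ψ0` along `𝒰` on the unit disc, `GD θ C Ph 0 ρ ψ0`. `V = ψ0 '' ball 0 1` open (`uh_open`), connected; `V \ Ph` is preconnected (`Pool.Agent.H65.UB.con` with `GP θ C Ph` from `ph_gap`; or `hcn`). `b = ψ0 (exp ζ) ∉ Ph` (`col_exp`). `Fh s = b`: `near` for `q k ζ → s`: `F k (q k ζ) = ψ k (exp ζ) → b`.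
(2) `w ∈ V`: `‖w‖ ≤ M / (L + 1) < ρ / C` (`2 C M ≤ ρ (L + 1)`, `0 < M`), `inn`. `Fh sb = w` (`fh_eq`). `sb ∈ Sc sb` (`mem_connectedComponentIn`). `path` from `s0 = sb` to `w1 = b`: `K`, `s1 ∈ K`, `Fh s1 = b`.
(3) `deck` for `s`, `s1`: `t ≠ 0`, `c`, `s1 = t s + c`, `T x = t x + c` maps `Sc` into itself and `Fh (T x) = Fh x`. `cl_of`: `q k → Q0` on `Qc θ`, `Lf Fh Sc θ ψ0 Q0`, `Q0 ζ = s`. `Cls θ 2 Q0` (pointwise limit of `hc`: `q k (ζ' + 4 π i) = q k ζ'`). `Q1 = t Q0 + c`: `Lf Fh Sc θ ψ0 Q1`, `Cls θ 2 Q1`, `Q1 ζ = s1`. `cl_lift` at `s1`: `Q' k → Q2`, `Lf (F k) (D k) θ (ψ k) (Q' k)`, `Q2 ζ = s1`, `Lf Fh Sc θ ψ0 Q2`; `Q2 = Q1` on `Qc θ` (`fh_lift_eq`, `col_exp`, `qc_open`, `qc_convex`). `Cls θ 2 Q2`. `cls_down`: `Cls θ 2 (Q' k)` for almost all `k`.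
(4) `lsx.pb` (bound `ρ`): for almost all `k`: `φ' , β'` with `PU (F k) (D k) θ (ψ k) φ' β'`, `Q' k '' Qc θ ⊆ φ' '' ball 0 1`.
(5) `K' = K ∪ closedBall sb ε ∪ closedBall s1 ε`, `ε > 0` so small that `K' ⊆ Sc` and `Fh '' K' ⊆ V` (`sc_open`, `fh_diff` continuous): compact, preconnected. `kin`: `ρ'`, for almost all `k`: `K' ⊆ D k`, `F k s ∈ ψ k '' closedBall 0 ρ'`. `Q' k ζ → s1`, so `Q' k ζ ∈ K'` for almost all `k`: `pu_con`: `K' ⊆ φ' '' ball 0 1`. `(φ k vs - z) / σ k → sb`, so `(φ k vs - z) / σ k ∈ K'` for almost all `k`.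
(6) UNSCALED: fix such a `k` (also with `Un`, `dx`, `ρ (L + 1) r k ≤ δ0`: `r k → 0`). `Ψ u = x k + R k ψ k u`: `GD θ C P (x k) (ρ (L + 1) r k) Ψ` (`gd_down`, `w = 0`, `rl_ne`), `Φ v = z + σ k φ' v`: `PU (f^[k]) (dm f U J δ k) θ Ψ Φ β'` (`pu_down`). `φ k vs ∈ Φ '' ball 0 1`. `K2 = φ k '' closedBall 0 (max ρ0 ‖vs‖)`: preconnected, contains `φ k vs` and `z = φ k (v k)`; `f^[k] (φ k u) = χ k (β k u)` is within `M r k < ρ (L + 1) r k / C` of `x k` (`bt_lt`, `cb`), so in `Ψ '' ball 0 θ` (`inn`). `pu_con` (`ρ' = θ`): `z ∈ Φ '' ball 0 1`: `z = Φ v'`, `‖v'‖ < 1`. `f^[k] z = Ψ (β' v')` and `‖f^[k] z - x k‖ < 2 r k ≤ ρ (L + 1) r k / C`: `f^[k] z = Ψ u`, `‖u‖ < θ`, so `β' v' = u` (`bt_lt`, injectivity): `‖β' v'‖ < θ`. So `Sm1 .. z k (x k) (ρ (L + 1) r k)`, `2 r k ≤ ρ (L + 1) r k ≤ δ0`: contradiction to `ns`.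
-/

set_option autoImplicit false

open Filter Topology Metric Set MeasureTheory

namespace Pool.Agent.H31.IN

open Pool.Agent.H56.UD Pool.Agent.H43.UB

variable {f : ℂ → ℂ} {U J P Cr E : Set ℂ} {δ b0 : ℝ} {η : ℂ → ℂ → ℂ} {ρ1 : ℝ} {X hh μ : ℂ → ℂ} {𝒰 : Ultrafilter ℕ}
  {θ C r0 δ0 M ρ0 : ℝ} {z : ℂ} {x σ v : ℕ → ℂ} {r : ℕ → ℝ} {χ φ β : ℕ → ℂ → ℂ}

private theorem exp_mem {θ : ℝ} {ζ : ℂ} (hζ : ζ ∈ Qc θ) : Complex.exp ζ ∈ ball (0 : ℂ) 1 := by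
  rw [mem_ball_zero_iff, Complex.norm_exp, Real.exp_lt_one_iff]
  exact hζ.2.1

private theorem ncl_a {𝒰 : Ultrafilter ℕ} {F : ℕ → ℂ → ℂ} {D P : ℕ → Set ℂ} {θ C : ℝ} (h : LS 𝒰 F D P θ C) {w sb : ℂ}
    (hg : Gd 𝒰 F D P w sb) {ρ : ℝ} (hρ : 0 < ρ) (hw : ‖w‖ < ρ / C) {ψ q : ℕ → ℂ → ℂ} {ζ s : ℂ}
    (hψ : ∀ᶠ k in (𝒰 : Filter ℕ), GD θ C (P k) 0 ρ (ψ k) ∧ Lf (F k) (D k) θ (ψ k) (q k)) (hζ : ζ ∈ Qc θ)
    (hs : s ∈ Sc 𝒰 F D P sb) (ht : Tendsto (fun k => q k ζ) (𝒰 : Filter ℕ) (𝓝 s))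
    (hc : ∀ᶠ k in (𝒰 : Filter ℕ), Cls θ 2 (q k)) {p : ℕ → ℂ} (hp : Tendsto p (𝒰 : Filter ℕ) (𝓝 sb)) :
    ∀ᶠ k in (𝒰 : Filter ℕ), ∃ φ β : ℂ → ℂ, PU (F k) (D k) θ (ψ k) φ β ∧ p k ∈ φ '' ball 0 1 := by
  have hGD : ∀ᶠ k in (𝒰 : Filter ℕ), GD θ C (P k) 0 ρ (ψ k) := hψ.mono fun k hk => hk.1
  have hLf : ∀ᶠ k in (𝒰 : Filter ℕ), Lf (F k) (D k) θ (ψ k) (q k) := hψ.mono fun k hk => hk.2
  have hx0 : Tendsto (fun _ : ℕ => (0 : ℂ)) (𝒰 : Filter ℕ) (𝓝 0) := tendsto_const_nhds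
  obtain ⟨ψ0, hg0, hl0⟩ := gap_lim h.θ0 h.θ1 h.C1 h.Pc (fun n => ⟨0, h.P0 n⟩) hρ hx0 hGD
  have hVo : IsOpen (ψ0 '' ball 0 1) := uh_open isOpen_ball hg0.diff hg0.inj isOpen_ball subset_rfl
  have hVc : IsPreconnected (ψ0 '' ball 0 1) :=
    (convex_ball (0 : ℂ) 1).isPreconnected.image _ hg0.diff.continuousOn
  have hGP : Pool.Agent.H65.UB.GP θ C (Ph 𝒰 P) := fun x hx r hr => by
    obtain ⟨_, _, ψ1, _, _, _, h1, _⟩ := ph_gap h hx hr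
    exact ⟨ψ1, h1⟩
  have hVp : IsPreconnected (ψ0 '' ball 0 1 \ Ph 𝒰 P) :=
    Pool.Agent.H65.UB.con h.θ0 h.θ1 h.C1 hGP ph_closed hVo hVc
  obtain ⟨-, hce⟩ := col_exp h.θ0 hg0
  have hbo : ψ0 (Complex.exp ζ) ∉ Ph 𝒰 P := (hce ζ hζ).2.2
  have hsg : s ∈ Sg 𝒰 F D P := sc_sub sb hs
  have hFs : Fh 𝒰 F D P s = ψ0 (Complex.exp ζ) := by
    have h1 := (near h (fh_gd hsg) ht).2
    have h2 : Tendsto (fun n => ψ n (Complex.exp ζ)) (𝒰 : Filter ℕ) (𝓝 (ψ0 (Complex.exp ζ))) :=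
      hl0.tendsto_at (exp_mem hζ)
    refine tendsto_nhds_unique h1 (h2.congr' ?_)
    filter_upwards [hLf] with n hn
    exact ((hn.val ζ hζ).2).symm
  have hwV : w ∈ ψ0 '' ball 0 1 := by
    have h1 : w ∈ ball (0 : ℂ) (ρ / C) := by rwa [mem_ball_zero_iff]
    obtain ⟨u, hu, huw⟩ := hg0.inn h1
    exact ⟨u, ball_subset_ball h.θ1.le hu, huw⟩
  have hsb : sb ∈ Sc 𝒰 F D P sb := mem_connectedComponentIn (show sb ∈ Sg 𝒰 F D P from ⟨w, hg⟩)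
  have hFsb : Fh 𝒰 F D P sb = w := fh_eq h hg
  obtain ⟨K, hKc, hKp, hKs, hK0, hKV, s1, hs1, hFs1⟩ := path h hVo hVp hsb (by rw [hFsb]; exact hwV)
    (⟨Complex.exp ζ, exp_mem hζ, rfl⟩ : ψ0 (Complex.exp ζ) ∈ ψ0 '' ball 0 1) hbo
  obtain ⟨t, c, ht0, hsc, hT⟩ := deck h hs (hKs hs1) (by rw [hFs, hFs1])
  obtain ⟨Q0, hQ0, hQ0ζ, hQ0L⟩ := cl_of h hx0 hGD hg0 hl0 hLf hζ hs ht hFs
  have hC0 : Cls θ 2 Q0 := by
    intro ζ' h1 h2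
    have e1 : Tendsto (fun n => q n ζ') (𝒰 : Filter ℕ) (𝓝 (Q0 ζ')) := hQ0.tendsto_at h1
    have e2 := hQ0.tendsto_at h2
    refine tendsto_nhds_unique e2 (e1.congr' ?_)
    filter_upwards [hc] with n hn
    exact (hn ζ' h1 h2).symm
  have hQ1L : Lf (Fh 𝒰 F D P) (Sc 𝒰 F D P sb) θ ψ0 (fun ζ' => (t : ℂ) * Q0 ζ' + c) := by
    refine ⟨(hQ0L.diff.const_mul _).add_const _, fun ζ' hζ' => ?_⟩
    have h1 := hT _ (hQ0L.val ζ' hζ').1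
    exact ⟨h1.1, h1.2.trans (hQ0L.val ζ' hζ').2⟩
  obtain ⟨Q', Q2, hQ'L, hQ'2, hQ2ζ, hQ2L⟩ := cl_lift h hx0 hGD hg0 hl0 hζ (hKs hs1) hFs1
  have heq : EqOn Q2 (fun ζ' => (t : ℂ) * Q0 ζ' + c) (Qc θ) := by
    refine fh_lift_eq h qc_open qc_convex.isPreconnected hQ2L.diff hQ1L.diff
      (fun u hu => ⟨sc_sub sb (hQ2L.val u hu).1, (hQ2L.val u hu).2⟩)
      (fun u hu => ⟨sc_sub sb (hQ1L.val u hu).1, (hQ1L.val u hu).2⟩)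
      (fun u hu => (hce u hu).1) hζ ?_
    show Q2 ζ = (t : ℂ) * Q0 ζ + c
    rw [hQ2ζ, hQ0ζ, hsc]
  have hC2 : Cls θ 2 Q2 := by
    intro ζ' h1 h2
    rw [heq h2, heq h1]
    show (t : ℂ) * Q0 _ + c = (t : ℂ) * Q0 ζ' + c
    rw [hC0 ζ' h1 h2]
  have hC' := cls_down h hx0 hGD hQ'L hQ2L hQ'2 hC2
  -- a compact connected set containing neighbourhoods of both ends
  have hAo : IsOpen (Sc 𝒰 F D P sb ∩ Fh 𝒰 F D P ⁻¹' (ψ0 '' ball 0 1)) :=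
    ((fh_diff h).continuousOn.mono (sc_sub sb)).isOpen_inter_preimage (sc_open h sb) hVo
  have hKA : K ⊆ Sc 𝒰 F D P sb ∩ Fh 𝒰 F D P ⁻¹' (ψ0 '' ball 0 1) := fun y hy => ⟨hKs hy, hKV y hy⟩
  obtain ⟨ε1, hε1, hb1⟩ := Metric.nhds_basis_closedBall.mem_iff.1 (hAo.mem_nhds (hKA hK0))
  obtain ⟨ε2, hε2, hb2⟩ := Metric.nhds_basis_closedBall.mem_iff.1 (hAo.mem_nhds (hKA hs1))
  obtain ⟨K', hK'⟩ : ∃ K' : Set ℂ, K' = closedBall sb ε1 ∪ K ∪ closedBall s1 ε2 := ⟨_, rfl⟩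
  have hK'c : IsCompact K' := by
    rw [hK']
    exact ((isCompact_closedBall _ _).union hKc).union (isCompact_closedBall _ _)
  have hK'p : IsPreconnected K' := by
    rw [hK']
    refine IsPreconnected.union s1 (Or.inr hs1) (mem_closedBall_self hε2.le) ?_
      (convex_closedBall _ _).isPreconnected
    exact IsPreconnected.union sb (mem_closedBall_self hε1.le) hK0
      (convex_closedBall _ _).isPreconnected hKp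
  have hK'A : K' ⊆ Sc 𝒰 F D P sb ∩ Fh 𝒰 F D P ⁻¹' (ψ0 '' ball 0 1) := by
    rw [hK']
    exact union_subset (union_subset hb1 hKA) hb2
  obtain ⟨ρ', h0', h1', hev⟩ := kin h (hGD.mono fun n hn => hn.diff) hl0 hg0.inj hK'c
    (fun y hy => sc_sub sb (hK'A hy).1) (fun y hy => (hK'A hy).2)
  have hQ'ζ : Tendsto (fun n => Q' n ζ) (𝒰 : Filter ℕ) (𝓝 s1) := by
    have h3 := hQ'2.tendsto_at hζ
    rwa [hQ2ζ] at h3
  have hin1 : ∀ᶠ n in (𝒰 : Filter ℕ), Q' n ζ ∈ K' := by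
    filter_upwards [hQ'ζ (closedBall_mem_nhds s1 hε2)] with n hn
    rw [hK']
    exact Or.inr hn
  have hin2 : ∀ᶠ n in (𝒰 : Filter ℕ), p n ∈ K' := by
    filter_upwards [hp (closedBall_mem_nhds sb hε1)] with n hn
    rw [hK']
    exact Or.inl (Or.inl hn)
  filter_upwards [hev, hGD, hQ'L, hC', h.pb ρ, hin1, hin2] with n h1 h2 h3 h4 h5 h6 h7
  obtain ⟨φ', β', hPU, hsub, -⟩ := h5 0 ρ (ψ n) (Q' n) (h.P0 n) (by rw [norm_zero]; exact hρ.le) hρ le_rfl h2 h3 h4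
  have h8 := pu_con h.θ0 h.θ1 h2.inj hPU hK'p h1' (fun y hy => (h1 y hy).2)
    ⟨Q' n ζ, h6, hsub ⟨ζ, hζ, rfl⟩⟩
  exact ⟨φ', β', hPU, h8 h7⟩

theorem ncl (h : PS f U J P Cr δ η ρ1) (hX : FX f U J E δ X hh μ b0) (hθ : 0 < θ) (hθ1 : θ < 1) (hC : 1 ≤ C) (hr0 : 0 < r0)
    (hU : UG θ C r0 P) (b : Bs 𝒰 f U J P E δ θ C δ0 z x r σ M ρ0 χ φ β v) {L : ℕ} {w sb vs : ℂ}
    (hg : G1 𝒰 f U J P δ M z x r σ φ L w sb vs) {ρ : ℝ} (hρ : 0 < ρ) (hρL : 2 * C * M ≤ ρ * (L + 1)) {ψ q : ℕ → ℂ → ℂ}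
    {ζ s : ℂ} (hψ : ∀ᶠ k in (𝒰 : Filter ℕ), GD θ C (P1 P x r L k) 0 ρ (ψ k) ∧
      Lf (F1 f z x r σ L k) (D1 f U J δ z σ k) θ (ψ k) (q k)) (hζ : ζ ∈ Qc θ)
    (hs : s ∈ Sc 𝒰 (F1 f z x r σ L) (D1 f U J δ z σ) (P1 P x r L) sb)
    (ht : Tendsto (fun k => q k ζ) (𝒰 : Filter ℕ) (𝓝 s)) (hc : ∀ᶠ k in (𝒰 : Filter ℕ), Cls θ 2 (q k)) : False := by
  have hC0 : 0 < C := by linarith
  have hM1 := b.M1
  have hL0 : (0 : ℝ) < (L : ℝ) + 1 := by positivity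
  have hw : ‖w‖ < ρ / C := by
    refine hg.wb.trans_lt ?_
    rw [div_lt_div_iff₀ hL0 hC0]
    nlinarith
  have hev := ncl_a (ls1 h hX hθ hθ1 hC hr0 hU b L) hg.gd hρ hw hψ hζ hs ht hc hg.vt
  have hrk : ∀ᶠ k in (𝒰 : Filter ℕ), ρ * (L + 1) * r k ≤ δ0 := by
    have h1 : Tendsto (fun k => ρ * (L + 1) * r k) (𝒰 : Filter ℕ) (𝓝 (ρ * (L + 1) * 0)) :=
      b.rt.const_mul _
    rw [mul_zero] at h1
    exact (h1.eventually (gt_mem_nhds b.d0)).mono fun k hk => le_of_lt hk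
  obtain ⟨k, ⟨φ', β', hPU, hmem⟩, hun, hdx, hrk', hGDk, -⟩ :=
    (hev.and (b.un.and (b.dx.and (hrk.and hψ)))).exists
  obtain ⟨hR0, hRn⟩ := rl_ne b L k
  have hrk0 := b.r0 k
  have hΨ : GD θ C P (x k) (‖Rl L r k‖ * ρ) (fun u => x k + Rl L r k * ψ k u) := by
    have h1 := gd_down (x := x) (R := Rl L r) (n := k) hR0 hGDk
    rwa [mul_zero, add_zero] at h1
  have hΦ : PU (f^[k]) (dm f U J δ k) θ (fun u => x k + Rl L r k * ψ k u) (fun y => z + σ k * φ' y) β' :=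
    pu_down (z := fun _ => z) (k := fun k => k) (x := x) (R := Rl L r) (σ := σ) (n := k) hR0 (b.s0 k) hPU
  have e1 : M * r k < ‖Rl L r k‖ * ρ / C := by
    rw [lt_div_iff₀ hC0, hRn]
    nlinarith [mul_le_mul_of_nonneg_right hρL hrk0.le, mul_pos (mul_pos hC0 (lt_of_lt_of_le one_pos hM1)) hrk0]
  have e2 : 2 * r k ≤ ‖Rl L r k‖ * ρ / C := by
    rw [le_div_iff₀ hC0, hRn]
    nlinarith [mul_le_mul_of_nonneg_right hρL hrk0.le, mul_le_mul_of_nonneg_right hM1 (mul_pos hC0 hrk0).le]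
  have e3 : 2 * r k ≤ ‖Rl L r k‖ * ρ := by
    refine e2.trans (div_le_self (by positivity) hC)
  have hmax : max ρ0 ‖vs‖ < 1 := max_lt b.ρ1 hg.vs1
  have hsub : closedBall (0 : ℂ) (max ρ0 ‖vs‖) ⊆ ball 0 1 := closedBall_subset_ball hmax
  obtain ⟨v1, hv1, hv1e⟩ := hmem
  have hK2 : IsPreconnected (φ k '' closedBall (0 : ℂ) (max ρ0 ‖vs‖)) :=
    (convex_closedBall _ _).isPreconnected.image _ (hun.pu.diff.continuousOn.mono hsub)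
  have hvs : vs ∈ closedBall (0 : ℂ) (max ρ0 ‖vs‖) := by
    rw [mem_closedBall_zero_iff]
    exact le_max_right _ _
  have hvk : v k ∈ closedBall (0 : ℂ) (max ρ0 ‖vs‖) := by
    rw [mem_closedBall_zero_iff]
    exact hun.vb.trans (le_max_left _ _)
  have hin : φ k '' closedBall (0 : ℂ) (max ρ0 ‖vs‖) ⊆ (fun y => z + σ k * φ' y) '' ball 0 1 := by
    refine pu_con hθ hθ1 hΨ.inj hΦ hK2 hθ1 ?_ ⟨φ k vs, ⟨vs, hvs, rfl⟩, ⟨v1, hv1, ?_⟩⟩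
    · rintro _ ⟨u, hu, rfl⟩
      have h1 := hun.pu.val u (hsub hu)
      have h2 : ‖β k u‖ < 1 := bt_lt hθ hθ1 hun.pu (mem_ball_zero_iff.1 (hsub hu))
      have h3 := hun.cb (β k u) (mem_ball_zero_iff.2 h2)
      have h4 : f^[k] (φ k u) ∈ ball (x k) (‖Rl L r k‖ * ρ / C) := by
        rw [mem_ball, dist_eq_norm, h1.2]
        exact h3.trans_lt e1
      obtain ⟨u', hu', hue⟩ := hΨ.inn h4
      exact ⟨u', (mem_ball_zero_iff.1 hu').le, hue.symm⟩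
    · show z + σ k * φ' v1 = φ k vs
      rw [hv1e]
      have := b.s0 k
      field_simp
      ring
  obtain ⟨v', hv', hv'e⟩ := hin ⟨v k, hvk, hun.vz⟩
  have hfz : f^[k] z ∈ ball (x k) (‖Rl L r k‖ * ρ / C) := by
    rw [mem_ball, dist_eq_norm]
    exact hdx.trans_le e2
  obtain ⟨u, hu, hue⟩ := hΨ.inn hfz
  have h1 := (hΦ.val v' hv').2
  have hβ1 : ‖β' v'‖ < 1 := bt_lt hθ hθ1 hΦ (mem_ball_zero_iff.1 hv')
  have h2 : β' v' = u := by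
    refine hΨ.inj (mem_ball_zero_iff.2 hβ1) (ball_subset_ball hθ1.le hu) ?_
    exact h1.symm.trans ((congrArg (f^[k]) hv'e).trans hue.symm)
  refine b.ns k (‖Rl L r k‖ * ρ) e3 ?_ ⟨_, _, β', v', hΨ, hΦ, mem_ball_zero_iff.1 hv', hv'e, ?_⟩
  · rw [hRn]
    linarith
  · rw [h2]
    exact mem_ball_zero_iff.1 hu

end Pool.Agent.H31.IN
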