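import Pool.Agent.H31.IN.Trf
import Pool.Agent.H31.IN.Ncl
import Pool.Agent.H43.UB.LFA

/-!
# THEOREM UD, INI: the order hypothesis for the second frames

PROOF of `ord2`. Let `t > 0`. `ls := ls2 ..`. `ls.gap t 1`: gap discs `ψ n` of `P2 n` at `(0, t)` for almost all `n` (`ls.P0`). `gap_lim` (`x n = 0`): `ψ0`, `GD θ C Ph 0 t ψ0`, `ψ n → ψ0`. `ζ0 = Real.log √θ ∈ Qc θ` (real; `log θ < log √θ < 0`, imaginary part `0`). `bb = ψ0 (exp ζ0) ∉ Ph` (`col_exp`). `gd2`: `0 ∈ Sg`. `onto_of` (the complement of `Ph` is preconnected: `Pool.Agent.H65.UB.con` with `V = univ` and `GP θ C Ph` from `ph_gap`, or `cpc` of H43/UB/LFA): `s ∈ Sc .. 0` with `Fh s = bb`. `cl_lift`: `Q n → Q0`, `Lf (F2 n) (D2 n) θ (ψ n) (Q n)` for almost all `n`, `Q0 ζ0 = s`: so `Q n ζ0 → s`.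
Claim: `¬ Cls θ 2 (Q n)` for almost all `n`. Otherwise (ultrafilter) `Cls θ 2 (Q n)` for almost all `n`. `trf` at `s`: `e`. For almost all `n`: gap disc, `Lf`, `Cls θ 2`, `‖Q n ζ0 - s‖ < e / 2`. By `ev_w` there is an `L` (almost all `L`) such that these hold for almost all `k` at `n = Nat.pair L k`, the conclusion of `trf` holds, and `2 C M ≤ t (L + 1)` (`𝒰 ≤ atTop`). FIX `L`. `a k = (z' L k - z) / σ k → s1 L`, `l k = Rl L r k / deriv (f^[k]) (z' L k) / σ k → lam L`. `q k ζ = a k + l k * Q (Nat.pair L k) ζ`: by `rel` `Lf (F1 .. L k) (D1 .. k) θ (ψ n) (q k)`, and `GD θ C (P1 .. L k) 0 t (ψ n)`, `Cls θ 2 (q k)`. `Q (Nat.pair L k) ζ0 → p'` along `𝒰` (`ul_ex`), `‖p' - s‖ ≤ e / 2`; `q k ζ0 → s1 L + lam L * p' ∈ Sc .. (sb L)`. `ncl` (with `ψ := fun k => ψ (Nat.pair L k)`): contradiction.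
-/

set_option autoImplicit false

open Filter Topology Metric Set MeasureTheory

namespace Pool.Agent.H31.IN

open Pool.Agent.H56.UD Pool.Agent.H43.UB

variable {f : ℂ → ℂ} {U J P Cr E : Set ℂ} {δ b0 : ℝ} {η : ℂ → ℂ → ℂ} {ρ : ℝ} {X hh μ : ℂ → ℂ} {𝒰 : Ultrafilter ℕ}
  {θ C r0 δ0 M ρ0 c0 : ℝ} {z : ℂ} {x σ v : ℕ → ℂ} {r : ℕ → ℝ} {χ φ β : ℕ → ℂ → ℂ} {w sb vs s1 lam : ℕ → ℂ} {z' : ℕ → ℕ → ℂ}

theorem ord2 (h : PS f U J P Cr δ η ρ) (hX : FX f U J E δ X hh μ b0) (hθ : 0 < θ) (hθ1 : θ < 1) (hC : 1 ≤ C) (hr0 : 0 < r0)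
    (hU : UG θ C r0 P) (h𝒰 : (𝒰 : Filter ℕ) ≤ atTop) (b : Bs 𝒰 f U J P E δ θ C δ0 z x r σ M ρ0 χ φ β v)
    (b2 : B2 𝒰 f U J P E δ M z x r σ φ c0 w sb vs s1 lam z') :
    Ord (Wf 𝒰) (F2 f x r z') (D2 f U J δ r z') (P2 P x r) θ C 0 := by
  intro t ht
  have ls := ls2 h hX hθ hθ1 hC hr0 hU b b2
  obtain ⟨ψ, hψ⟩ : ∃ ψ : ℕ → ℂ → ℂ, ∀ᶠ n in (Wf 𝒰 : Filter ℕ), GD θ C (P2 P x r n) 0 t (ψ n) := by
    have h1 : ∀ᶠ n in (Wf 𝒰 : Filter ℕ), ∃ ψ : ℂ → ℂ, GD θ C (P2 P x r n) 0 t ψ := by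
      filter_upwards [ls.gap t 1 ht] with n hn
      exact hn 0 (ls.P0 n) (by simp)
    exact h1.choice
  obtain ⟨ψ0, hg0, hl0⟩ := gap_lim (𝒰 := Wf 𝒰) hθ hθ1 hC ls.Pc (fun n => ⟨0, ls.P0 n⟩) ht
    (x := fun _ => 0) (x0 := 0) tendsto_const_nhds hψ
  have hlog : Real.log θ < 0 := Real.log_neg hθ hθ1
  obtain ⟨ζ0, hζ0⟩ : ∃ ζ0 : ℂ, ζ0 ∈ Qc θ := by
    refine ⟨((Real.log θ / 2 : ℝ) : ℂ), ?_, ?_, ?_⟩
    · rw [Complex.ofReal_re]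
      linarith
    · rw [Complex.ofReal_re]
      linarith
    · rw [Complex.ofReal_im, abs_zero]
      have := Real.pi_pos
      positivity
  have hbb : ψ0 (Complex.exp ζ0) ∉ Ph (Wf 𝒰) (P2 P x r) := ((col_exp hθ hg0).2 ζ0 hζ0).2.2
  obtain ⟨b', hb'⟩ := gd2 h b b2
  obtain ⟨s, hs, hse⟩ := onto_of ls ⟨b', hb'⟩ (cpc ls) hbb
  obtain ⟨Q, Q0, hQ, hQl, hQ0, -⟩ := cl_lift ls (x := fun _ => 0) (x0 := 0) tendsto_const_nhds hψ hg0 hl0 hζ0 hs hse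
  have hQs : Tendsto (fun n => Q n ζ0) (Wf 𝒰 : Filter ℕ) (𝓝 s) := by
    rw [← hQ0]
    exact hQl.tendsto_at hζ0
  have hncl : ∀ᶠ n in (Wf 𝒰 : Filter ℕ), ¬ Cls θ 2 (Q n) := by
    rw [Ultrafilter.eventually_not]
    intro hc
    obtain ⟨e, he, htrf⟩ := trf h hX hθ hθ1 hC hr0 hU b b2 hs
    have hclose : ∀ᶠ n in (Wf 𝒰 : Filter ℕ), ‖Q n ζ0 - s‖ < e / 2 := by
      filter_upwards [Metric.tendsto_nhds.1 hQs (e / 2) (half_pos he)] with n hn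
      rwa [dist_eq_norm] at hn
    have hall := ((hψ.and hQ).and (hc.and hclose))
    rw [ev_w] at hall
    have hL : ∀ᶠ L : ℕ in (𝒰 : Filter ℕ), 2 * C * M ≤ t * ((L : ℝ) + 1) := by
      obtain ⟨N, hN⟩ := exists_nat_gt (2 * C * M / t)
      have h0 : ∀ᶠ L : ℕ in (𝒰 : Filter ℕ), N ≤ L := h𝒰 (eventually_ge_atTop N)
      refine h0.mono fun L hL => ?_
      have h1 : (N : ℝ) ≤ L := by exact_mod_cast hL
      rw [div_lt_iff₀ ht] at hN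
      nlinarith
    obtain ⟨L, h1, h2, h3⟩ := (hall.and (htrf.and hL)).exists
    obtain ⟨p', hp', hp'n⟩ := ul_ex 𝒰 (z := fun k => Q (Nat.pair L k) ζ0) (M := ‖s‖ + e / 2) (by
      filter_upwards [h1] with k hk
      have h4 : Q (Nat.pair L k) ζ0 = s + (Q (Nat.pair L k) ζ0 - s) := by ring
      rw [h4]
      exact (norm_add_le _ _).trans (add_le_add le_rfl hk.2.2.le))
    have hp's : p' ∈ ball s e := by
      have h4 : ‖p' - s‖ ≤ e / 2 := by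
        refine le_of_tendsto (hp'.sub_const s).norm ?_
        filter_upwards [h1] with k hk
        exact hk.2.2.le
      rw [mem_ball, dist_eq_norm]
      linarith
    have hq := b2.q L
    have hlim : Tendsto (fun k => (z' L k - z) / σ k + Rl L r k / deriv (f^[k]) (z' L k) / σ k * Q (Nat.pair L k) ζ0)
        (𝒰 : Filter ℕ) (𝓝 (s1 L + lam L * p')) := hq.st.add (hq.lt.mul hp')
    refine ncl h hX hθ hθ1 hC hr0 hU b (b2.g L) ht h3 (ψ := fun k => ψ (Nat.pair L k))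
      (q := fun k ζ => (z' L k - z) / σ k + Rl L r k / deriv (f^[k]) (z' L k) / σ k * Q (Nat.pair L k) ζ)
      (ζ := ζ0) (s := s1 L + lam L * p') ?_ hζ0 (h2 p' hp's) hlim ?_
    · filter_upwards [h1] with k hk
      refine ⟨?_, ⟨?_, ?_⟩⟩
      · rw [← (rel b z' L k 0).2.2]
        exact hk.1.1
      · exact (hk.1.2.diff.const_mul _).const_add _
      · intro ζ hζ
        have h5 := hk.1.2.val ζ hζ
        have h6 := rel b z' L k (Q (Nat.pair L k) ζ)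
        exact ⟨h6.2.1.1 h5.1, by rw [← h6.1]; exact h5.2⟩
    · filter_upwards [h1] with k hk ζ h5 h6
      show (z' L k - z) / σ k + Rl L r k / deriv (f^[k]) (z' L k) / σ k * Q (Nat.pair L k) _ = _
      rw [hk.2.1 ζ h5 h6]
  refine ⟨ψ, Q, ?_, ζ0, hζ0, s, hs, hQs⟩
  filter_upwards [hψ, hQ, hncl] with n h1 h2 h3
  exact ⟨h1, h2, h3⟩

end Pool.Agent.H31.IN
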