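import Pool.Agent.H31.IN.Defs
import Pool.Agent.H43.UB.NEA

/-!
# THEOREM UD: states from the exponential

PROOF of `stt`. Write `F n, D n, P n` for the rescaled data. `hx : Xp`: `κ ≠ 0`, `c`; `0 ∈ Sc .. 0` (`mem_connectedComponentIn`), so `b' = exp ((0 - c) / κ)` (`hg`). Let `ζs = - c / κ`, `b' = exp ζs ≠ 0`. `b n := F n 0 → b'` (`near` with the constant sequence `0`), `0 ∈ D n` for almost all `n`. `ζ n = ζs + Complex.log (b n / b')`: `exp (ζ n) = b n` (if `b n ≠ 0`), `ζ n → ζs` (`Complex.log` is continuous at `1`).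
LOCAL INJECTIVITY at `0`: `gb` at `(b', 0)` (a small radius `t`): `H n → g` on `ball b' t`, `F n (H n u) = u`, `g b' = 0`, `g` injective. There is `ε1 > 0` such that for almost all `n`: `ball 0 (2 ε1) ⊆ H n '' ball b' t` (choose `closedBall 0 (2 ε1) ⊆ g '' ball b' t` (open: `uh_open`); otherwise there are bad points `s n ∈ ball 0 (2 ε1)` for almost all `n`, `s n → s = g u`, `uh_hit`: contradiction). So on `ball 0 (2 ε1)` `F n` is injective for almost all `n`. Take also `ε1 ≤ ‖κ‖ / 2`, `ε1 ≤ 1`.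
Let `L1 = |α| + |β| + |L| + ‖ζs‖ + 4`. `Xp` with `L1` and `ε1`: `G n` for almost all `n`. `‖G n (ζ n)‖ ≤ ‖κ ζ n + c‖ + ε1 < 2 ε1` for almost all `n` (`κ ζ n + c → κ ζs + c = 0`), and `F n (G n (ζ n)) = exp (ζ n) = b n = F n 0`: so `G n (ζ n) = 0`.
STATE at such an `n` (also with `‖S n‖ (‖κ‖ + 1) < ε`, `‖ζ n - ζs‖ < 1`): `Gs ζ = Z n + S n * G n (ζ + ζ n)` on `Qr α β L` (`ζ + ζ n ∈ ball 0 L1`): `Gs 0 = Z n ∈ E`; `f^[K n] (Gs ζ) = X n + R n * exp (ζ + ζ n) = X n + R n b n exp ζ`, `R n b n = f^[K n] (Z n) - X n ≠ 0`; `Gs ζ ∈ dm`. INJECTIVE: `G n` is injective on `ball 0 L1`: `G n ζ1 = G n ζ2` gives `exp ζ1 = exp ζ2`, `ζ1 - ζ2 = 2 π i m` (`Complex.exp_eq_exp_iff_exists_int`); `‖G n ζ1 - G n ζ2 - κ (ζ1 - ζ2)‖ < 2 ε1 ≤ ‖κ‖`, so `‖κ‖ 2 π |m| < ‖κ‖`, `m = 0`. `deriv Gs 0 = S n * deriv (G n) (ζ n)`, `‖deriv (G n) (ζ n)‖ ≤ ‖κ‖ + ε1` (Cauchy for `G n - κ ζ - c` on `ball (ζ n) 1`).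
-/

set_option autoImplicit false

open Filter Topology Metric Set MeasureTheory

namespace Pool.Agent.H31.IN

open Pool.Agent.H56.UD Pool.Agent.H43.UB

variable {f : ℂ → ℂ} {U J P E : Set ℂ} {δ θ C : ℝ} {𝒲 : Ultrafilter ℕ} {Z X R S : ℕ → ℂ} {K : ℕ → ℕ}

private theorem stt_diag {R : ℕ → ℂ} (hR0 : ∀ n, R n ≠ 0) (hRt : Tendsto R (𝒲 : Filter ℕ) (𝓝 0))
    {α : Type} [Inhabited α] {p : ℕ → ℝ → α → Prop} (hmono : ∀ n ε ε' G, ε ≤ ε' → p n ε G → p n ε' G)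
    (h : ∀ ε : ℝ, 0 < ε → ∀ᶠ n in (𝒲 : Filter ℕ), ∃ G, p n ε G) :
    ∃ G : ℕ → α, ∀ ε : ℝ, 0 < ε → ∀ᶠ n in (𝒲 : Filter ℕ), p n ε (G n) := by
  classical
  obtain ⟨T, hT⟩ : ∃ T : ℕ → Set ℝ, ∀ n, T n = {ε | 0 < ε ∧ ∃ G, p n ε G} := ⟨_, fun _ => rfl⟩
  have hbd : ∀ n, BddBelow (T n) := fun n => ⟨0, fun ε hε => by
    rw [hT] at hε
    exact hε.1.le⟩
  refine ⟨fun n => if h : ∃ G : α, ∃ ε : ℝ, ε < sInf (T n) + ‖R n‖ ∧ p n ε G then h.choose else default,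
    fun ε hε => ?_⟩
  have h1 : ∀ᶠ n in (𝒲 : Filter ℕ), ‖R n‖ < ε / 2 := by
    have h2 := hRt.norm
    rw [norm_zero] at h2
    exact h2.eventually_lt_const (half_pos hε)
  filter_upwards [h (ε / 2) (half_pos hε), h1] with n hn hRn
  have h2 : ε / 2 ∈ T n := by
    rw [hT]
    exact ⟨half_pos hε, hn⟩
  have h3 : sInf (T n) ≤ ε / 2 := csInf_le (hbd n) h2
  have h4 : sInf (T n) < sInf (T n) + ‖R n‖ := by
    have := norm_pos_iff.2 (hR0 n)
    linarith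
  obtain ⟨ε', hε', hlt⟩ := exists_lt_of_csInf_lt ⟨_, h2⟩ h4
  rw [hT] at hε'
  obtain ⟨G, hG⟩ := hε'.2
  have h5 : ∃ G : α, ∃ ε : ℝ, ε < sInf (T n) + ‖R n‖ ∧ p n ε G := ⟨G, ε', hlt, hG⟩
  rw [dif_pos h5]
  obtain ⟨ε'', h6, h7⟩ := h5.choose_spec
  exact hmono n ε'' ε _ (by linarith) h7

theorem stt (hm : Fm 𝒲 E P Z K X R S) (hl : LS 𝒲 (Fn f Z K X R S) (Dn f U J δ Z K S) (Pn P X R) θ C) {b' : ℂ}
    (hg : Gd 𝒲 (Fn f Z K X R S) (Dn f U J δ Z K S) (Pn P X R) b' 0)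
    (hx : Xp 𝒲 (Fn f Z K X R S) (Dn f U J δ Z K S) (Pn P X R) 0) (α β L : ℝ) {ε : ℝ} (hε : 0 < ε) :
    ∃ (n : ℕ) (G : ℂ → ℂ), ST f U J P E δ (Z n) (K n) (X n) (f^[K n] (Z n) - X n) α β L G ∧ ‖deriv G 0‖ < ε := by
  obtain ⟨κ, c, hκ, hval, hGx⟩ := hx
  have h0 : (0 : ℂ) ∈ Sc 𝒲 (Fn f Z K X R S) (Dn f U J δ Z K S) (Pn P X R) 0 :=
    mem_connectedComponentIn ⟨b', hg⟩
  have hb' := hval 0 h0 b' hg
  obtain ⟨ζs, hζs⟩ : ∃ ζs : ℂ, ζs = (0 - c) / κ := ⟨_, rfl⟩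
  rw [← hζs] at hb'
  have hb0 : b' ≠ 0 := by
    rw [hb']
    exact Complex.exp_ne_zero _
  obtain ⟨b, hb⟩ : ∃ b : ℕ → ℂ, ∀ n, b n = Fn f Z K X R S n 0 := ⟨_, fun _ => rfl⟩
  obtain ⟨-, hbt⟩ := near hl hg (z := fun _ => 0) tendsto_const_nhds
  have hbt' : Tendsto b (𝒲 : Filter ℕ) (𝓝 b') := hbt.congr fun n => (hb n).symm
  obtain ⟨ζ, hζ⟩ : ∃ ζ : ℕ → ℂ, ∀ n, ζ n = ζs + Complex.log (b n / b') := ⟨_, fun _ => rfl⟩
  have hζt : Tendsto ζ (𝒲 : Filter ℕ) (𝓝 ζs) := by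
    have h1 : Tendsto (fun n => b n / b') (𝒲 : Filter ℕ) (𝓝 1) := by
      have h2 := hbt'.div_const b'
      rwa [div_self hb0] at h2
    have h3 : Tendsto (fun n => Complex.log (b n / b')) (𝒲 : Filter ℕ) (𝓝 0) := by
      have h4 := (continuousAt_clog Complex.one_mem_slitPlane).tendsto.comp h1
      rwa [Complex.log_one] at h4
    have h5 := h3.const_add ζs
    rw [add_zero] at h5
    exact h5.congr fun n => (hζ n).symm
  have hbne : ∀ᶠ n in (𝒲 : Filter ℕ), b n ≠ 0 := hbt'.eventually_ne hb0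
  have hexp : ∀ n, b n ≠ 0 → Complex.exp (ζ n) = b n := by
    intro n hn
    rw [hζ, Complex.exp_add, ← hb', Complex.exp_log (div_ne_zero hn hb0), mul_div_cancel₀ _ hb0]
  obtain ⟨L1, hL1⟩ : ∃ L1 : ℝ, L1 = |α| + |β| + |L| + ‖ζs‖ + 4 := ⟨_, rfl⟩
  have hL1s : ‖ζs‖ + 4 ≤ L1 := by
    have := abs_nonneg α
    have := abs_nonneg β
    have := abs_nonneg L
    linarith
  obtain ⟨G, hG⟩ := stt_diag (α := ℂ → ℂ) hm.R0 hm.Rt
    (p := fun n ε G => DifferentiableOn ℂ G (ball 0 L1) ∧ ∀ ζ ∈ ball (0 : ℂ) L1, G ζ ∈ Dn f U J δ Z K S n ∧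
      Fn f Z K X R S n (G ζ) = Complex.exp ζ ∧ ‖G ζ - (κ * ζ + c)‖ < ε)
    (fun n ε ε' G hεε h => ⟨h.1, fun ζ hζ => ⟨(h.2 ζ hζ).1, (h.2 ζ hζ).2.1, (h.2 ζ hζ).2.2.trans_le hεε⟩⟩)
    (fun ε hε => hGx L1 ε hε)
  have hζ1 : ∀ᶠ n in (𝒲 : Filter ℕ), ‖ζ n - ζs‖ < 1 := by
    have h1 := (tendsto_iff_norm_sub_tendsto_zero.1 hζt)
    exact h1.eventually_lt_const one_pos
  have hball : ∀ n, ‖ζ n - ζs‖ < 1 → ‖ζ n‖ < ‖ζs‖ + 1 := by
    intro n hn
    have h1 : ζ n = (ζ n - ζs) + ζs := by ring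
    rw [h1]
    have := norm_add_le (ζ n - ζs) ζs
    linarith
  -- the base point
  have hz : Tendsto (fun n => G n (ζ n)) (𝒲 : Filter ℕ) (𝓝 0) := by
    rw [tendsto_zero_iff_norm_tendsto_zero, Metric.tendsto_nhds]
    intro e he
    have h1 : Tendsto (fun n => ‖κ * ζ n + c‖) (𝒲 : Filter ℕ) (𝓝 0) := by
      have h2 := ((hζt.const_mul κ).add_const c).norm
      have h3 : κ * ζs + c = 0 := by
        rw [hζs]
        field_simp
        ring
      rwa [h3, norm_zero] at h2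
    filter_upwards [hG (e / 2) (half_pos he), hζ1, h1.eventually_lt_const (half_pos he)] with n h2 h3 h4
    have h5 : ζ n ∈ ball (0 : ℂ) L1 := by
      rw [mem_ball_zero_iff]
      linarith [hball n h3]
    have h6 := (h2.2 _ h5).2.2
    rw [Real.dist_eq, sub_zero, abs_of_nonneg (norm_nonneg _)]
    have h7 : G n (ζ n) = (G n (ζ n) - (κ * ζ n + c)) + (κ * ζ n + c) := by ring
    rw [h7]
    have := norm_add_le (G n (ζ n) - (κ * ζ n + c)) (κ * ζ n + c)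
    linarith
  have hG0 : ∀ᶠ n in (𝒲 : Filter ℕ), G n (ζ n) = 0 := by
    refine uq hl hg hz (z' := fun _ => 0) tendsto_const_nhds ?_
    filter_upwards [hG 1 one_pos, hζ1, hbne] with n h1 h2 h3
    have h5 : ζ n ∈ ball (0 : ℂ) L1 := by
      rw [mem_ball_zero_iff]
      linarith [hball n h2]
    rw [(h1.2 _ h5).2.1, hexp n h3, hb]
  have hκ0 : 0 < ‖κ‖ := norm_pos_iff.2 hκ
  obtain ⟨ε1, hε1⟩ : ∃ ε1 : ℝ, ε1 = min (‖κ‖ / 2) 1 := ⟨_, rfl⟩
  have hε10 : 0 < ε1 := by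
    rw [hε1]
    exact lt_min (half_pos hκ0) one_pos
  have hε1a : ε1 ≤ ‖κ‖ / 2 := by
    rw [hε1]
    exact min_le_left _ _
  have hε1b : ε1 ≤ 1 := by
    rw [hε1]
    exact min_le_right _ _
  have hSt : ∀ᶠ n in (𝒲 : Filter ℕ), ‖S n‖ * (‖κ‖ + 1) < ε := by
    have h1 := hm.σt.norm.mul_const (‖κ‖ + 1)
    rw [norm_zero, zero_mul] at h1
    exact h1.eventually_lt_const hε
  obtain ⟨n, hn0, ⟨hnd, hnv⟩, hnS, hnζ, hnb⟩ :=
    (hG0.and ((hG ε1 hε10).and (hSt.and (hζ1.and hbne)))).exists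
  have hmem : ∀ v ∈ Qr α β L, v + ζ n ∈ ball (0 : ℂ) L1 := by
    intro v hv
    obtain ⟨h1, h2, h3⟩ := hv
    have h4 : |v.re| ≤ |α| + |β| := by
      rw [abs_le]
      constructor
      · linarith [neg_abs_le α, abs_nonneg β]
      · linarith [le_abs_self β, abs_nonneg α]
    have h5 := Complex.norm_le_abs_re_add_abs_im v
    have h6 := le_abs_self L
    have h7 := norm_add_le v (ζ n)
    have h8 := hball n hnζ
    rw [mem_ball_zero_iff]
    linarith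
  have hζn : ζ n ∈ ball (0 : ℂ) L1 := by
    rw [mem_ball_zero_iff]
    linarith [hball n hnζ]
  obtain ⟨Gs, hGs⟩ : ∃ Gs : ℂ → ℂ, ∀ v, Gs v = Z n + S n * G n (v + ζ n) := ⟨_, fun _ => rfl⟩
  have hbn : f^[K n] (Z n) - X n = R n * b n := by
    rw [hb]
    unfold Fn
    rw [mul_zero, add_zero, mul_div_cancel₀ _ (hm.R0 n)]
  have hinj : InjOn (G n) (ball 0 L1) := by
    intro v hv u hu hvu
    obtain ⟨-, a2, a3⟩ := hnv v hv
    obtain ⟨-, b2, b3⟩ := hnv u hu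
    have h1 : Complex.exp v = Complex.exp u := by rw [← a2, ← b2, hvu]
    obtain ⟨m, hm⟩ := Complex.exp_eq_exp_iff_exists_int.1 h1
    have h2 : ‖κ * (v - u)‖ < ‖κ‖ := by
      have h3 : κ * (v - u) = (G n u - (κ * u + c)) - (G n v - (κ * v + c)) := by
        rw [hvu]
        ring
      rw [h3]
      have := norm_sub_le (G n u - (κ * u + c)) (G n v - (κ * v + c))
      linarith
    rw [norm_mul] at h2
    have h3 : ‖v - u‖ < 1 := by
      by_contra h4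
      push Not at h4
      have := mul_le_mul_of_nonneg_left h4 hκ0.le
      linarith
    have h4 : v - u = m * (2 * Real.pi * Complex.I) := by
      rw [hm]
      ring
    have h5 : ‖v - u‖ = |(m : ℝ)| * (2 * Real.pi) := by
      rw [h4, norm_mul, Complex.norm_intCast, norm_mul, norm_mul, Complex.norm_I, mul_one,
        Complex.norm_real, Real.norm_of_nonneg Real.pi_pos.le, Complex.norm_ofNat]
    by_cases hm0 : m = 0
    · rw [hm0, Int.cast_zero, zero_mul] at h4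
      exact sub_eq_zero.1 h4
    · exfalso
      have h6 : (1 : ℝ) ≤ |(m : ℝ)| := by
        have h7 : 1 ≤ |m| := Int.one_le_abs hm0
        exact_mod_cast h7
      have h7 := Real.pi_gt_three
      rw [h5] at h3
      nlinarith
  refine ⟨n, Gs, ⟨hm.zE n, hm.xP n, ?_, ?_, ?_, ?_, ?_⟩, ?_⟩
  · rw [hbn]
    exact mul_ne_zero (hm.R0 n) hnb
  · have h1 : DifferentiableOn ℂ (fun v => Z n + S n * G n (v + ζ n)) (Qr α β L) := by
      refine DifferentiableOn.const_add _ (DifferentiableOn.const_mul ?_ _)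
      exact hnd.comp (by fun_prop) hmem
    exact h1.congr fun v _ => hGs v
  · intro v hv u hu hvu
    rw [hGs, hGs] at hvu
    have h1 : G n (v + ζ n) = G n (u + ζ n) := mul_left_cancel₀ (hm.σ0 n) (add_left_cancel hvu)
    exact add_right_cancel (hinj (hmem v hv) (hmem u hu) h1)
  · intro v hv
    obtain ⟨a1, a2, -⟩ := hnv _ (hmem v hv)
    rw [hGs]
    refine ⟨a1, ?_⟩
    have h1 : (f^[K n] (Z n + S n * G n (v + ζ n)) - X n) / R n = Complex.exp (v + ζ n) := a2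
    rw [div_eq_iff (hm.R0 n), Complex.exp_add, hexp n hnb] at h1
    rw [hbn]
    linear_combination h1
  · rw [hGs, zero_add, hn0, mul_zero, add_zero]
  · have hnd' : DifferentiableAt ℂ (G n) (ζ n) := hnd.differentiableAt (isOpen_ball.mem_nhds hζn)
    have h1 : HasDerivAt Gs (S n * deriv (G n) (ζ n)) 0 := by
      have h2 : HasDerivAt (fun v : ℂ => G n (v + ζ n)) (deriv (G n) (ζ n)) 0 := by
        have h3 : HasDerivAt (G n) (deriv (G n) (ζ n)) (0 + ζ n) := by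
          rw [zero_add]
          exact hnd'.hasDerivAt
        exact h3.comp_add_const 0 (ζ n)
      have h3 := (h2.const_mul (S n)).const_add (Z n)
      exact h3.congr_of_eventuallyEq (Eventually.of_forall fun v => hGs v)
    rw [h1.deriv, norm_mul]
    have hsub : closedBall (ζ n) 1 ⊆ ball (0 : ℂ) L1 := by
      intro v hv
      rw [mem_closedBall, dist_eq_norm] at hv
      rw [mem_ball_zero_iff]
      have h2 : v = (v - ζ n) + ζ n := by ring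
      rw [h2]
      have := norm_add_le (v - ζ n) (ζ n)
      linarith [hball n hnζ]
    have h2 : ‖deriv (fun v => G n v - (κ * v + c)) (ζ n)‖ ≤ ε1 / 1 := by
      refine Complex.norm_deriv_le_of_forall_mem_sphere_norm_le one_pos ?_ ?_
      · apply DifferentiableOn.diffContOnCl
        rw [closure_ball _ one_ne_zero]
        exact (hnd.mono hsub).sub (by fun_prop)
      · intro v hv
        exact (hnv v (hsub (sphere_subset_closedBall hv))).2.2.le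
    have h3 : deriv (fun v => G n v - (κ * v + c)) (ζ n) = deriv (G n) (ζ n) - κ := by
      have h4 : HasDerivAt (fun v : ℂ => κ * v + c) κ (ζ n) := by
        have h5 := ((hasDerivAt_id (ζ n)).const_mul κ).add_const c
        rw [mul_one] at h5
        exact h5
      exact (hnd'.hasDerivAt.sub h4).deriv
    rw [h3, div_one] at h2
    have h4 : ‖deriv (G n) (ζ n)‖ ≤ ‖κ‖ + 1 := by
      have h5 : deriv (G n) (ζ n) = (deriv (G n) (ζ n) - κ) + κ := by ring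
      rw [h5]
      have := norm_add_le (deriv (G n) (ζ n) - κ) κ
      linarith
    calc ‖S n‖ * ‖deriv (G n) (ζ n)‖ ≤ ‖S n‖ * (‖κ‖ + 1) := mul_le_mul_of_nonneg_left h4 (norm_nonneg _)
      _ < ε := hnS

end Pool.Agent.H31.IN
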