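import Pool.Agent.H31.IN.Defs
import Pool.Agent.H80.AJ.Porous

/-!
# THEOREM UD, INI: thick points of `E` with a regular orbit

PROOF of `ex_z`. (1) DENSITY. `E` is compact, of positive measure. `Besicovitch.ae_tendsto_measure_inter_div (volume : Measure ℂ) E`: for almost all `z ∈ E` the ratio `volume (E ∩ closedBall z t) / volume (closedBall z t)` tends to `1` as `t → 0+`. Such a `z` is in `Tk E z`: let `M, c` be given (`M ≥ 0` without loss, replace by `max M 0`; `c ≤ 1`), `T = M + c`. For `0 < ‖σ‖ < ε` the ratio for `t = T ‖σ‖` is `> 1 - (c / T) ^ 2 / 2`. If no `e ∈ E` has `‖e - (z + σ w)‖ < c ‖σ‖` then `E` is disjoint from `ball (z + σ w) (c ‖σ‖) ⊆ closedBall z (T ‖σ‖)`, so `volume (E ∩ closedBall z t) ≤ volume (closedBall z t) - volume (ball (z + σ w) (c ‖σ‖)) = (1 - (c / T) ^ 2) volume (closedBall z t)` (`Complex.volume_ball`, `Complex.volume_closedBall`: `π r ^ 2`): contradiction. See `Pool/Agent/H80/AJ/Porous.lean` for a similar argument.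
(2) EXCEPTIONAL POINTS. For each `k` the set `Z k = {z ∈ J | deriv (f^[k]) z = 0}` is finite: `f^[k]` is holomorphic on the open set `dm f U J δ k ⊇ J` (`dm_open`, `dm_diff`, `J_dm`), so is its derivative. If `Z k` is infinite it has (compactness of `J`) an accumulation point `y ∈ J`; by the identity theorem `deriv (f^[k]) = 0` near `y` (`AnalyticAt.eventually_eq_zero_or_eventually_ne_zero`), so `f^[k]` is constant on a ball `O` around `y`, so `f^[n]` is constant on `O ∩ J` for all `n ≥ k`; `PS.leo`: `J ⊆ f^[n] '' (O ∩ J)` for large `n`, a single point: contradiction to `0 < volume E`, `E ⊆ J`.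
So the union of the `Z k` is countable, of measure `0` (`Set.Countable.measure_zero`), and a point `z ∈ E` as in (1) outside of it exists since `0 < volume E` (`measure` of the good points of `E` is positive: `ae_restrict`).
-/

set_option autoImplicit false

open Filter Topology Metric Set MeasureTheory

namespace Pool.Agent.H31.IN

open Pool.Agent.H56.UD

variable {f : ℂ → ℂ} {U J P Cr E : Set ℂ} {δ b0 : ℝ} {η : ℂ → ℂ → ℂ} {ρ : ℝ} {X hh μ : ℂ → ℂ}

private theorem tka_null (E : Set ℂ) : volume {z | z ∈ E ∧ ¬ Tk E z} = 0 := by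
  refine Pool.Agent.H80.AJ.porous_null fun z hz => ?_
  have hz2 := hz.2
  unfold Tk at hz2
  push Not at hz2
  obtain ⟨M, c, hc, hz3⟩ := hz2
  obtain ⟨T, hT⟩ : ∃ T, T = max M 0 + c := ⟨_, rfl⟩
  have hT0 : 0 < T := by
    have := le_max_right M 0
    linarith
  refine ⟨c / T, by positivity, fun ρ0 hρ0 => ?_⟩
  obtain ⟨σ, w, hσ, hσ2, hw, he⟩ := hz3 (ρ0 / T) (by positivity)
  have hσ0 : 0 < ‖σ‖ := norm_pos_iff.2 hσ
  have h1 : c / T * (T * ‖σ‖) = c * ‖σ‖ := by field_simp
  refine ⟨T * ‖σ‖, by positivity, ?_, z + σ * w, ?_, ?_⟩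
  · rw [lt_div_iff₀ hT0] at hσ2
    linarith
  · rw [h1]
    intro u hu
    rw [mem_ball, dist_eq_norm] at hu ⊢
    have h2 : u - z = (u - (z + σ * w)) + σ * w := by ring
    have h3 : ‖σ * w‖ ≤ ‖σ‖ * max M 0 := by
      rw [norm_mul]
      exact mul_le_mul_of_nonneg_left (hw.trans (le_max_left _ _)) hσ0.le
    calc ‖u - z‖ ≤ ‖u - (z + σ * w)‖ + ‖σ * w‖ := by
          rw [h2]
          exact norm_add_le _ _
      _ < c * ‖σ‖ + ‖σ‖ * max M 0 := add_lt_add_of_lt_of_le hu h3
      _ = T * ‖σ‖ := by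
          rw [hT]
          ring
  · intro u hu hu2
    rw [h1, mem_ball, dist_eq_norm] at hu
    exact absurd hu (not_lt.2 (he u hu2.1))

private theorem tka_fin (h : PS f U J P Cr δ η ρ) (k : ℕ) :
    {z | z ∈ J ∧ deriv (f^[k]) z = 0}.Finite := by
  by_contra hinf
  obtain ⟨y, hy, hacc⟩ := Set.Infinite.exists_accPt_of_subset_isCompact (hinf : Set.Infinite _)
    h.Jc fun z hz => hz.1
  rw [accPt_iff_frequently_nhdsNE] at hacc
  have ho := dm_open h k
  have hyd := J_dm h k hy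
  have han : AnalyticAt ℂ (deriv (f^[k])) y := ((dm_diff h k).analyticAt (ho.mem_nhds hyd)).deriv
  have hz0 : ∀ᶠ z in 𝓝 y, deriv (f^[k]) z = 0 :=
    han.frequently_zero_iff_eventually_zero.1 (hacc.mono fun z hz => hz.2)
  obtain ⟨r, hr, hrs⟩ := Metric.eventually_nhds_iff_ball.1 (hz0.and (ho.mem_nhds hyd))
  have hconst : ∀ a ∈ ball y r, ∀ b ∈ ball y r, f^[k] a = f^[k] b := fun a ha b hb =>
    isOpen_ball.is_const_of_deriv_eq_zero (convex_ball y r).isPreconnected
      ((dm_diff h k).mono fun z hz => (hrs z hz).2) (fun z hz => (hrs z hz).1) ha hb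
  obtain ⟨N, hN⟩ := h.leo (ball y r) isOpen_ball ⟨y, mem_ball_self hr, hy⟩
  obtain ⟨a, ha, b, hb, hab⟩ := h.Jt
  obtain ⟨u, hu, hua⟩ := hN (N + k) (by omega) ha
  obtain ⟨v, hv, hvb⟩ := hN (N + k) (by omega) hb
  refine hab ?_
  rw [← hua, ← hvb, Function.iterate_add_apply, Function.iterate_add_apply,
    hconst u hu.1 v hv.1]

theorem ex_z (h : PS f U J P Cr δ η ρ) (hX : FX f U J E δ X hh μ b0) :
    ∃ z ∈ E, (∀ k : ℕ, deriv (f^[k]) z ≠ 0) ∧ Tk E z := by
  by_contra hcon
  push Not at hcon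
  have hsub : E ⊆ {z | z ∈ E ∧ ¬ Tk E z} ∪ ⋃ k : ℕ, {z | z ∈ J ∧ deriv (f^[k]) z = 0} := by
    intro z hz
    by_cases hk : ∀ k : ℕ, deriv (f^[k]) z ≠ 0
    · exact Or.inl ⟨hz, hcon z hz hk⟩
    · push Not at hk
      obtain ⟨k, hk⟩ := hk
      exact Or.inr (mem_iUnion.2 ⟨k, hX.EJ hz, hk⟩)
  have h0 : volume (⋃ k : ℕ, {z | z ∈ J ∧ deriv (f^[k]) z = 0}) = 0 :=
    (countable_iUnion fun k => (tka_fin h k).countable).measure_zero volume
  have h1 : volume E = 0 := measure_mono_null hsub (measure_union_null (tka_null E) h0)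
  exact hX.Ep.ne' h1

/-- two different points of the Julia set -/
theorem ex_two (hX : FX f U J E δ X hh μ b0) : ∃ a ∈ J, ∃ b ∈ J, a ≠ b := by
  by_contra hcon
  push Not at hcon
  have h1 : J.Subsingleton := fun a ha b hb => hcon a ha b hb
  exact hX.Ep.ne' (measure_mono_null hX.EJ (h1.measure_zero volume))

end Pool.Agent.H31.IN
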