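import Pool.Agent.H31.IN.Zer
import Pool.Agent.H31.IN.Tka

/-!
# THEOREM UD, INI: base data

PROOF of `base`. `ex_z`: `z`. `ex_two`: `a ≠ b` in `J`. `δ0 = min (δ / 2) (‖a - b‖ / 4)`. For each `k`: `x k ∈ P` nearest to `f^[k] z` (`P` is closed and not empty: `IsClosed.exists_infDist_eq_dist`), `r k` by `scl` (`z ∈ E ⊆ J`). `𝒰` given. `zer`: `r k → 0`. `sm_dx` for almost all `k` (those with `2 r k ≤ δ0`). `sm_un` for almost all `k`: `χ k, φ k, β k, v k` (choice; arbitrary for the other `k`). `σ k = deriv (φ k) 0` if the unit data exist and this is not `0`, otherwise `1`. For almost all `k`: `deriv (φ k) 0 ≠ 0` (`φ k` is injective on the unit disc: `uh_der`). `σ k → 0`: `shk` with `y k = x k`, `δ1 = δ0` (`M r k ≤ δ0` for almost all `k`, `f^[k] (φ k u) = χ k (β k u)`, `bt_lt`), `v k`, `φ k (v k) = z ∈ J`.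
-/

set_option autoImplicit false

open Filter Topology Metric Set MeasureTheory

namespace Pool.Agent.H31.IN

open Pool.Agent.H56.UD Pool.Agent.H43.UB

variable {f : ℂ → ℂ} {U J P Cr E : Set ℂ} {δ b0 : ℝ} {η : ℂ → ℂ → ℂ} {ρ : ℝ} {X hh μ : ℂ → ℂ}

theorem base (h : PS f U J P Cr δ η ρ) (hX : FX f U J E δ X hh μ b0) {θ C : ℝ} (hθ : 0 < θ) (hθ1 : θ < 1) (hC : 1 ≤ C)
    {𝒰 : Ultrafilter ℕ} (h𝒰 : (𝒰 : Filter ℕ) ≤ atTop) :
    ∃ (δ0 : ℝ) (z : ℂ) (x : ℕ → ℂ) (r : ℕ → ℝ) (σ : ℕ → ℂ) (M ρ0 : ℝ) (χ φ β : ℕ → ℂ → ℂ) (v : ℕ → ℂ),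
      Bs 𝒰 f U J P E δ θ C δ0 z x r σ M ρ0 χ φ β v := by
  obtain ⟨z, hzE, hdz, htk⟩ := ex_z h hX
  obtain ⟨a, ha, b, hb, hab⟩ := ex_two hX
  have hzJ : z ∈ J := hX.EJ hzE
  have habn : 0 < ‖a - b‖ := norm_pos_iff.2 (sub_ne_zero.2 hab)
  obtain ⟨δ0, hδ0e⟩ : ∃ δ0 : ℝ, δ0 = min (δ / 2) (‖a - b‖ / 4) := ⟨_, rfl⟩
  have hδ0 : 0 < δ0 := by
    rw [hδ0e]
    exact lt_min (half_pos h.hδ) (by linarith)
  have hδ : δ0 ≤ δ := by
    have h1 : δ0 ≤ δ / 2 := hδ0e ▸ min_le_left _ _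
    have h2 := h.hδ
    linarith
  have hJ : ∃ a ∈ J, ∃ b ∈ J, 2 * δ0 < ‖a - b‖ := by
    refine ⟨a, ha, b, hb, ?_⟩
    have h1 : δ0 ≤ ‖a - b‖ / 4 := hδ0e ▸ min_le_right _ _
    linarith
  have hxe : ∀ k : ℕ, ∃ x ∈ P, ∀ y ∈ P, ‖f^[k] z - x‖ ≤ ‖f^[k] z - y‖ := by
    intro k
    obtain ⟨x, hx, hx2⟩ := h.Pc.exists_infDist_eq_dist h.Pn (f^[k] z)
    refine ⟨x, hx, fun y hy => ?_⟩
    have h1 := infDist_le_dist_of_mem (x := f^[k] z) hy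
    rw [hx2, dist_eq_norm, dist_eq_norm] at h1
    exact h1
  choose x hxP hxn using hxe
  have hre := fun k => scl h θ C hδ0 hzJ (hdz k) (x k)
  choose r hr0 hrδ hrs hrn using hre
  have rt : Tendsto r (𝒰 : Filter ℕ) (𝓝 0) :=
    zer h hX hθ hθ1 hC h𝒰 hδ0 hδ hJ hzE hxP (fun k => ⟨hr0 k, hrδ k, hrs k⟩)
  have dx : ∀ᶠ k in (𝒰 : Filter ℕ), ‖f^[k] z - x k‖ < 2 * r k := by
    filter_upwards [rt.eventually (gt_mem_nhds (half_pos hδ0))] with k hk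
    exact sm_dx h hδ0 hδ hzJ (hxn k) (hr0 k) (by linarith) (fun t h1 h2 => (hrn k t h1 h2).2)
  obtain ⟨M, ρ0, hM, hρ0, hun⟩ := sm_un hθ hθ1 hC
  have hun' : ∀ k : ℕ, ∃ (χ φ β : ℂ → ℂ) (v : ℂ), ‖f^[k] z - x k‖ < 2 * r k →
      Un f U J δ θ z k (x k) (r k) M ρ0 χ φ β v := by
    intro k
    by_cases hk : ‖f^[k] z - x k‖ < 2 * r k
    · obtain ⟨χ, φ, β, v, h1⟩ := hun (hr0 k) hk (hrs k)
      exact ⟨χ, φ, β, v, fun _ => h1⟩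
    · exact ⟨id, id, id, 0, fun h1 => absurd h1 hk⟩
  choose χ φ β v hv using hun'
  have un : ∀ᶠ k in (𝒰 : Filter ℕ), Un f U J δ θ z k (x k) (r k) M ρ0 (χ k) (φ k) (β k) (v k) := by
    filter_upwards [dx] with k hk
    exact hv k hk
  obtain ⟨σ, hσ⟩ : ∃ σ : ℕ → ℂ, σ = fun k => if deriv (φ k) 0 = 0 then 1 else deriv (φ k) 0 := ⟨_, rfl⟩
  have s0 : ∀ k, σ k ≠ 0 := by
    intro k
    rw [hσ]
    show (if deriv (φ k) 0 = 0 then (1 : ℂ) else deriv (φ k) 0) ≠ 0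
    by_cases h1 : deriv (φ k) 0 = 0
    · rw [if_pos h1]
      exact one_ne_zero
    · rwa [if_neg h1]
  have se : ∀ᶠ k in (𝒰 : Filter ℕ), σ k = deriv (φ k) 0 := by
    filter_upwards [un] with k hk
    have h1 : deriv (φ k) 0 ≠ 0 := uh_der isOpen_ball hk.pu.diff hk.pu.inj (mem_ball_self one_pos)
    rw [hσ]
    show (if deriv (φ k) 0 = 0 then (1 : ℂ) else deriv (φ k) 0) = deriv (φ k) 0
    rw [if_neg h1]
  have hM0 : 0 < M := by linarith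
  have hsm : ∀ᶠ k in (𝒰 : Filter ℕ), M * r k ≤ δ0 := by
    filter_upwards [rt.eventually (gt_mem_nhds (div_pos hδ0 hM0))] with k hk
    rw [lt_div_iff₀ hM0] at hk
    linarith
  have st0 : Tendsto (fun k => deriv (φ k) 0) (𝒰 : Filter ℕ) (𝓝 0) := by
    refine shk h h𝒰 (δ1 := δ0) hρ0 hJ (y := x) (v := v) ?_ ?_
    · filter_upwards [un, hsm] with k hk hk2
      refine ⟨hk.pu.diff, hk.pu.inj, fun u hu => ?_⟩
      obtain ⟨h1, h2⟩ := hk.pu.val u hu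
      refine ⟨h1, ?_⟩
      rw [h2]
      refine (hk.cb _ (mem_ball_zero_iff.2 (bt_lt hθ hθ1 hk.pu (mem_ball_zero_iff.1 hu)))).trans hk2
    · filter_upwards [un] with k hk
      refine ⟨hk.vb, ?_⟩
      rw [hk.vz]
      exact hzJ
  refine ⟨δ0, z, x, r, σ, M, ρ0, χ, φ, β, v, hzE, hdz, htk, hxP, hδ0, hr0, rt,
    fun k ρ h1 h2 => (hrn k ρ h1 h2).1, dx, hM, hρ0, un, s0, se, ?_⟩
  refine st0.congr' ?_
  filter_upwards [se] with k hk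
  exact hk.symm

end Pool.Agent.H31.IN
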