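import Pool.Agent.H56.UD.DE
import Pool.Agent.H56.UD.BDefs

/-!
# THEOREM UD, the first state (INI): definitions

`Tk`: thick points of `E`. `Sm1`, `Sm2`: simple scales at time `k` near `z`. `Un`: unit data (a pull back unit of degree at
most two over a disc of the size `r`, near `z`). `Bs`: base data. `Rl`: the scales `(L + 1) r k`. `F1`, `D1`, `P1`: the frames
with base `z`, centres `x k` and scales `(L + 1) r k`. `Wf`: the product of an ultrafilter with itself, on pairs `(L, k)`.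
`B2`: second base data: for each `L` points `z' L k ∈ E` over points of the collar at the scale `(L + 1) r k`.
`Kw .. Sw`: the frames with base `z' L k`, indexed by `n = Nat.pair L k`.
-/

set_option autoImplicit false

open Filter Topology Metric Set MeasureTheory

namespace Pool.Agent.H31.IN

open Pool.Agent.H56.UD

/-- `E` is dense near `z` at all small scales -/
def Tk (E : Set ℂ) (z : ℂ) : Prop :=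
  ∀ M c : ℝ, 0 < c → ∃ ε : ℝ, 0 < ε ∧ ∀ σ w : ℂ, σ ≠ 0 → ‖σ‖ < ε → ‖w‖ ≤ M → ∃ e ∈ E, ‖e - (z + σ * w)‖ < c * ‖σ‖

/-- the point `z` is in a pull back unit over a gap disc at `(x, r)` -/
def Sm1 (f : ℂ → ℂ) (U J P : Set ℂ) (δ θ C : ℝ) (z : ℂ) (k : ℕ) (x : ℂ) (r : ℝ) : Prop :=
  ∃ (ψ φ β : ℂ → ℂ) (v : ℂ), GD θ C P x r ψ ∧ PU (f^[k]) (dm f U J δ k) θ ψ φ β ∧ ‖v‖ < 1 ∧ φ v = z ∧ ‖β v‖ < θ

/-- there is a branch of `f^-k` over the disc of radius `r` at `f^k z` -/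
def Sm2 (f : ℂ → ℂ) (U J : Set ℂ) (δ : ℝ) (z : ℂ) (k : ℕ) (r : ℝ) : Prop :=
  ∃ G : ℂ → ℂ, DifferentiableOn ℂ G (ball (f^[k] z) r) ∧ G (f^[k] z) = z ∧
    ∀ u ∈ ball (f^[k] z) r, G u ∈ dm f U J δ k ∧ f^[k] (G u) = u

/-- unit data: `f^k ∘ φ = χ ∘ β` -/
structure Un (f : ℂ → ℂ) (U J : Set ℂ) (δ θ : ℝ) (z : ℂ) (k : ℕ) (x : ℂ) (r M ρ0 : ℝ) (χ φ β : ℂ → ℂ) (v : ℂ) : Prop where
  cd : DifferentiableOn ℂ χ (ball 0 1)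
  ci : InjOn χ (ball 0 1)
  cb : ∀ u ∈ ball (0 : ℂ) 1, ‖χ u - x‖ ≤ M * r
  cl : r ≤ M * ‖deriv χ 0‖
  pu : PU (f^[k]) (dm f U J δ k) θ χ φ β
  vb : ‖v‖ ≤ ρ0
  vz : φ v = z

/-- base data: `r k` is a simple scale, the scales between `2 r k` and `δ0` are not simple -/
structure Bs (𝒰 : Ultrafilter ℕ) (f : ℂ → ℂ) (U J P E : Set ℂ) (δ θ C δ0 : ℝ) (z : ℂ) (x : ℕ → ℂ) (r : ℕ → ℝ)
    (σ : ℕ → ℂ) (M ρ0 : ℝ) (χ φ β : ℕ → ℂ → ℂ) (v : ℕ → ℂ) : Prop where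
  zE : z ∈ E
  dz : ∀ k, deriv (f^[k]) z ≠ 0
  tk : Tk E z
  xP : ∀ k, x k ∈ P
  d0 : 0 < δ0
  r0 : ∀ k, 0 < r k
  rt : Tendsto r (𝒰 : Filter ℕ) (𝓝 0)
  ns : ∀ (k : ℕ) (ρ : ℝ), 2 * r k ≤ ρ → ρ ≤ δ0 → ¬ Sm1 f U J P δ θ C z k (x k) ρ
  dx : ∀ᶠ k in (𝒰 : Filter ℕ), ‖f^[k] z - x k‖ < 2 * r k
  M1 : 1 ≤ M
  ρ1 : ρ0 < 1
  un : ∀ᶠ k in (𝒰 : Filter ℕ), Un f U J δ θ z k (x k) (r k) M ρ0 (χ k) (φ k) (β k) (v k)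
  s0 : ∀ k, σ k ≠ 0
  se : ∀ᶠ k in (𝒰 : Filter ℕ), σ k = deriv (φ k) 0
  st : Tendsto σ (𝒰 : Filter ℕ) (𝓝 0)

/-- the scale `(L + 1) r k` -/
noncomputable def Rl (L : ℕ) (r : ℕ → ℝ) (k : ℕ) : ℂ := ((((L : ℝ) + 1) * r k : ℝ) : ℂ)

/-- the frames with base `z` and scales `(L + 1) r k` -/
noncomputable abbrev F1 (f : ℂ → ℂ) (z : ℂ) (x : ℕ → ℂ) (r : ℕ → ℝ) (σ : ℕ → ℂ) (L : ℕ) : ℕ → ℂ → ℂ :=
  Fn f (fun _ => z) (fun k => k) x (Rl L r) σ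

/-- their domains -/
abbrev D1 (f : ℂ → ℂ) (U J : Set ℂ) (δ : ℝ) (z : ℂ) (σ : ℕ → ℂ) : ℕ → Set ℂ := Dn f U J δ (fun _ => z) (fun k => k) σ

/-- the rescaled postcritical sets -/
abbrev P1 (P : Set ℂ) (x : ℕ → ℂ) (r : ℕ → ℝ) (L : ℕ) : ℕ → Set ℂ := Pn P x (Rl L r)

/-- the product of `𝒰` with itself on the pairs `(L, k)` -/
noncomputable def Wf (𝒰 : Ultrafilter ℕ) : Ultrafilter ℕ := 𝒰.bind (fun L => 𝒰.map (fun k => Nat.pair L k))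

theorem ev_w {𝒰 : Ultrafilter ℕ} {p : ℕ → Prop} :
    (∀ᶠ n in (Wf 𝒰 : Filter ℕ), p n) ↔ ∀ᶠ L in (𝒰 : Filter ℕ), ∀ᶠ k in (𝒰 : Filter ℕ), p (Nat.pair L k) := by
  show {n | p n} ∈ Filter.bind (𝒰 : Filter ℕ) (fun L => ((𝒰.map (fun k => Nat.pair L k) : Ultrafilter ℕ) : Filter ℕ)) ↔ _
  rw [Filter.mem_bind']
  rfl

/-- a good pair of the first frames near the unit data -/
structure G1 (𝒰 : Ultrafilter ℕ) (f : ℂ → ℂ) (U J P : Set ℂ) (δ M : ℝ) (z : ℂ) (x : ℕ → ℂ) (r : ℕ → ℝ) (σ : ℕ → ℂ)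
    (φ : ℕ → ℂ → ℂ) (L : ℕ) (w sb vs : ℂ) : Prop where
  vs1 : ‖vs‖ < 1
  wb : ‖w‖ ≤ M / (L + 1)
  gd : Gd 𝒰 (F1 f z x r σ L) (D1 f U J δ z σ) (P1 P x r L) w sb
  vt : Tendsto (fun k => (φ k vs - z) / σ k) (𝒰 : Filter ℕ) (𝓝 sb)

/-- points of `E` near `z` over points at the scale `(L + 1) r k` -/
structure Q2 (𝒰 : Ultrafilter ℕ) (f : ℂ → ℂ) (U J P E : Set ℂ) (δ : ℝ) (z : ℂ) (x : ℕ → ℂ) (r : ℕ → ℝ) (σ : ℕ → ℂ)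
    (c0 : ℝ) (L : ℕ) (sb s1 lam : ℂ) (z' : ℕ → ℂ) : Prop where
  zE : ∀ k, z' k ∈ E
  dz : ∀ k, deriv (f^[k]) (z' k) ≠ 0
  l0 : lam ≠ 0
  sm : s1 ∈ Sc 𝒰 (F1 f z x r σ L) (D1 f U J δ z σ) (P1 P x r L) sb
  st : Tendsto (fun k => (z' k - z) / σ k) (𝒰 : Filter ℕ) (𝓝 s1)
  lt : Tendsto (fun k => Rl L r k / deriv (f^[k]) (z' k) / σ k) (𝒰 : Filter ℕ) (𝓝 lam)
  off : ∀ᶠ k in (𝒰 : Filter ℕ), z' k ∈ dm f U J δ k ∧ ‖(f^[k] (z' k) - x k) / Rl L r k‖ ≤ 2 ∧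
    ∀ u ∈ ball ((f^[k] (z' k) - x k) / Rl L r k) c0, u ∉ P1 P x r L k

/-- second base data -/
structure B2 (𝒰 : Ultrafilter ℕ) (f : ℂ → ℂ) (U J P E : Set ℂ) (δ M : ℝ) (z : ℂ) (x : ℕ → ℂ) (r : ℕ → ℝ) (σ : ℕ → ℂ)
    (φ : ℕ → ℂ → ℂ) (c0 : ℝ) (w sb vs s1 lam : ℕ → ℂ) (z' : ℕ → ℕ → ℂ) : Prop where
  c1 : 0 < c0
  g : ∀ L, G1 𝒰 f U J P δ M z x r σ φ L (w L) (sb L) (vs L)
  q : ∀ L, Q2 𝒰 f U J P E δ z x r σ c0 L (sb L) (s1 L) (lam L) (z' L)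

/-- times of the second frames -/
def Kw (n : ℕ) : ℕ := (Nat.unpair n).2

/-- bases of the second frames -/
def Zw (z' : ℕ → ℕ → ℂ) (n : ℕ) : ℂ := z' (Nat.unpair n).1 (Nat.unpair n).2

/-- centres of the second frames -/
def Xw (x : ℕ → ℂ) (n : ℕ) : ℂ := x (Nat.unpair n).2

/-- scales of the second frames -/
noncomputable def Rw (r : ℕ → ℝ) (n : ℕ) : ℂ := Rl (Nat.unpair n).1 r (Nat.unpair n).2

/-- the scales near the bases of the second frames: the derivative of the rescaled iterate at `0` is `1` -/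
noncomputable def Sw (f : ℂ → ℂ) (r : ℕ → ℝ) (z' : ℕ → ℕ → ℂ) (n : ℕ) : ℂ := Rw r n / deriv (f^[Kw n]) (Zw z' n)

/-- the second frames -/
noncomputable abbrev F2 (f : ℂ → ℂ) (x : ℕ → ℂ) (r : ℕ → ℝ) (z' : ℕ → ℕ → ℂ) : ℕ → ℂ → ℂ :=
  Fn f (Zw z') Kw (Xw x) (Rw r) (Sw f r z')

/-- their domains -/
noncomputable abbrev D2 (f : ℂ → ℂ) (U J : Set ℂ) (δ : ℝ) (r : ℕ → ℝ) (z' : ℕ → ℕ → ℂ) : ℕ → Set ℂ :=
  Dn f U J δ (Zw z') Kw (Sw f r z')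

/-- the rescaled postcritical sets -/
noncomputable abbrev P2 (P : Set ℂ) (x : ℕ → ℂ) (r : ℕ → ℝ) : ℕ → Set ℂ := Pn P (Xw x) (Rw r)

end Pool.Agent.H31.IN
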