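import Pool.Agent.H31.IN.Puc
import Pool.Agent.H43.UB.GAP
import Pool.Agent.H65.UB.Gdf

/-!
# THEOREM UD, INI: the first frames and their good point

`fm1`: `Bs` (`z ∈ E`, `x k ∈ P`, `r k > 0`, `r k → 0`, `σ k ≠ 0`, `σ k → 0`). `ls1`: `fm_ls`.
`g1_ex`. Write `R = Rl L r`, `g k u = (φ k u - z) / σ k`, `χ^ k u = (χ k u - x k) / R k` on the unit disc. For almost all `k`: `F1 k (g k u) = χ^ k (β k u)`, `g k u ∈ D1 k` (`Un.pu.val`), `g k` injective, `deriv (g k) 0 = 1`, `‖χ^ k u‖ ≤ M / (L + 1)`. (1) `χ^ k → χ0` locally uniformly along `𝒰` on the unit disc (`um`), `‖deriv (χ^ k) 0‖ ≥ 1 / (M (L + 1))`, so `χ0` is injective (`uh_inj`, `TendstoLocallyUniformlyOn.deriv`). (2) `g k` is locally bounded: `g k (v k) = 0`, `‖v k‖ ≤ ρ0`, `deriv (g k) 0 = 1`: on `closedBall 0 t`, `ρ0 ≤ t < 1`, the derivatives are at most `KK ^ N` (`chain`, H65/UB/Gdf, or `distort` along segments) so `‖g k u‖ ≤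 2 KK ^ N`: `um`: `g k → g0`, `deriv g0 0 = 1`, injective (`uh_inj`). (3) `β k → β0` locally uniformly on the unit disc (`um`, `bt_lt`, `bt_diff`); `β0` is not constant: `typ`: for almost all `k` the first case (`β0 = id`) or for almost all `k` the second case with `α k → α`, `‖α‖ ≤ θ < 1`, `β0 v = (v ^ 2 + α) / (1 + conj α v ^ 2)`, `deriv β0 v ≠ 0` for `v ≠ 0`.
(4) POINT: `Ph 𝒰 (P1 ..)` has empty interior (`ph_int (ls1 ..)`) and is closed. `χ0 ∘ β0` is holomorphic on the unit disc, its derivative is not `0` at `v ≠ 0` (`uh_der`), so it is an open map on `ball 0 1 \ {0}`: there is `vs` with `0 < ‖vs‖ < 1` and `w := χ0 (β0 vs) ∉ Ph`. `sb := g0 vs`. `Gd w sb` with the sequence `g k vs → sb`: `F1 k (g k vs) = χ^ k (β k vs) → w`; `deriv (F1 k) (g k vs) * deriv (g k) vs = deriv (χ^ k) (β k vs) * deriv (β k) vs → deriv χ0 (β0 vs) * deriv β0 vs ≠ 0` and `deriv (g k) vs → deriv g0 vs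 ≠ 0`: the quotient is bounded above and below for almost all `k`. `‖w‖ ≤ M / (L + 1)`: limit.
-/

set_option autoImplicit false

open Filter Topology Metric Set MeasureTheory

namespace Pool.Agent.H31.IN

open Pool.Agent.H56.UD Pool.Agent.H43.UB

variable {f : ℂ → ℂ} {U J P Cr E : Set ℂ} {δ b0 : ℝ} {η : ℂ → ℂ → ℂ} {ρ : ℝ} {X hh μ : ℂ → ℂ} {𝒰 : Ultrafilter ℕ}
  {θ C r0 δ0 M ρ0 : ℝ} {z : ℂ} {x σ v : ℕ → ℂ} {r : ℕ → ℝ} {χ φ β : ℕ → ℂ → ℂ}

theorem rl_ne (b : Bs 𝒰 f U J P E δ θ C δ0 z x r σ M ρ0 χ φ β v) (L k : ℕ) : Rl L r k ≠ 0 ∧ ‖Rl L r k‖ = ((L : ℝ) + 1) * r k := by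
  have h1 : (0 : ℝ) < ((L : ℝ) + 1) * r k := mul_pos (by positivity) (b.r0 k)
  refine ⟨Complex.ofReal_ne_zero.2 h1.ne', ?_⟩
  unfold Rl
  rw [Complex.norm_real, Real.norm_of_nonneg h1.le]

theorem rl_t (b : Bs 𝒰 f U J P E δ θ C δ0 z x r σ M ρ0 χ φ β v) (L : ℕ) : Tendsto (Rl L r) (𝒰 : Filter ℕ) (𝓝 0) := by
  have h1 : Tendsto (fun k => ((L : ℝ) + 1) * r k) (𝒰 : Filter ℕ) (𝓝 0) := by
    have h2 := b.rt.const_mul ((L : ℝ) + 1)
    rwa [mul_zero] at h2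
  have h3 := (Complex.continuous_ofReal.tendsto 0).comp h1
  rw [Complex.ofReal_zero] at h3
  exact h3

theorem fm1 (b : Bs 𝒰 f U J P E δ θ C δ0 z x r σ M ρ0 χ φ β v) (L : ℕ) : Fm 𝒰 E P (fun _ => z) (fun k => k) x (Rl L r) σ := by
  exact ⟨fun _ => b.zE, b.xP, fun n => (rl_ne b L n).1, b.s0, rl_t b L, b.st⟩

/-- univalent functions which vanish at a point of `closedBall 0 t` -/
private theorem fra_bd {g : ℂ → ℂ} (hd : DifferentiableOn ℂ g (ball 0 1)) (hi : InjOn g (ball 0 1)) (h1 : deriv g 0 = 1)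
    {t : ℝ} (ht : t < 1) {v : ℂ} (hv : ‖v‖ ≤ t) (hg : g v = 0) {w : ℂ} (hw : ‖w‖ ≤ t) :
    ‖g w‖ ≤ Pool.Agent.H80.AJ.KK ^ ⌈2 / (1 - t)⌉₊ * 2 := by
  have ht0 : 0 ≤ t := (norm_nonneg _).trans hv
  have hδ : 0 < 1 - t := by linarith
  have hsub : ∀ y : ℂ, ‖y‖ ≤ t → ball y (1 - t) ⊆ ball 0 1 := by
    intro y hy u hu
    rw [mem_ball, dist_eq_norm] at hu
    rw [mem_ball_zero_iff]
    have h2 := norm_add_le (u - y) y
    rw [sub_add_cancel] at h2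
    linarith
  have hder : ∀ y : ℂ, ‖y‖ ≤ t → ‖deriv g y‖ ≤ Pool.Agent.H80.AJ.KK ^ ⌈2 / (1 - t)⌉₊ := by
    intro y hy
    have h2 := Pool.Agent.H65.UB.chain (g := g) hδ (w := y) (w' := 0) ⌈2 / (1 - t)⌉₊ (by
      rw [sub_zero]
      have h3 := Nat.le_ceil (2 / (1 - t))
      calc ‖y‖ ≤ 1 := by linarith
        _ = 2 / (1 - t) * ((1 - t) / 2) := by field_simp
        _ ≤ _ := mul_le_mul_of_nonneg_right h3 (by linarith)) (by
      intro u hu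
      have h4 : u ∈ closedBall (0 : ℂ) t := (convex_closedBall (0 : ℂ) t).segment_subset
        (mem_closedBall_zero_iff.2 hy) (mem_closedBall_self ht0) hu
      have h5 := hsub u (mem_closedBall_zero_iff.1 h4)
      exact ⟨hd.mono h5, hi.mono h5⟩)
    rwa [h1, norm_one, mul_one] at h2
  have h6 := Convex.norm_image_sub_le_of_norm_deriv_le (𝕜 := ℂ) (s := closedBall (0 : ℂ) t) (f := g)
    (C := Pool.Agent.H80.AJ.KK ^ ⌈2 / (1 - t)⌉₊) (x := v) (y := w)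
    (fun y hy => hd.differentiableAt (isOpen_ball.mem_nhds
      (closedBall_subset_ball ht hy))) (fun y hy => hder y (mem_closedBall_zero_iff.1 hy))
    (convex_closedBall _ _) (mem_closedBall_zero_iff.2 hv) (mem_closedBall_zero_iff.2 hw)
  rw [hg, sub_zero] at h6
  refine h6.trans (mul_le_mul_of_nonneg_left ?_ (pow_nonneg Pool.Agent.H80.AJ.KK_pos.le _))
  have h7 := norm_sub_le w v
  linarith

private theorem fra_ball {u : ℂ} (_hu : u ∈ ball (0 : ℂ) 1) : ball u (1 - ‖u‖) ⊆ ball (0 : ℂ) 1 := by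
  intro y hy
  rw [mem_ball, dist_eq_norm] at hy
  rw [mem_ball_zero_iff]
  have h2 := norm_add_le (y - u) u
  rw [sub_add_cancel] at h2
  linarith

private theorem fra_lim {c : ℕ → ℂ → ℂ} {c0 : ℂ → ℂ} (hc : ContinuousOn c0 (ball 0 1))
    (ht : TendstoLocallyUniformlyOn c c0 (𝒰 : Filter ℕ) (ball 0 1)) {u : ℕ → ℂ} {u0 : ℂ} {t : ℝ} (h1 : t < 1)
    (hu : ∀ᶠ n in (𝒰 : Filter ℕ), ‖u n‖ ≤ t) (hu0 : Tendsto u (𝒰 : Filter ℕ) (𝓝 u0)) (hu1 : ‖u0‖ ≤ t) :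
    Tendsto (fun n => c n (u n)) (𝒰 : Filter ℕ) (𝓝 (c0 u0)) := by
  have hmem : u0 ∈ ball (0 : ℂ) 1 := mem_ball_zero_iff.2 (hu1.trans_lt h1)
  refine ht.tendsto_comp (hc u0 hmem) hmem (tendsto_nhdsWithin_iff.2 ⟨hu0, ?_⟩)
  filter_upwards [hu] with n hn
  exact mem_ball_zero_iff.2 (hn.trans_lt h1)

theorem ls1 (h : PS f U J P Cr δ η ρ) (hX : FX f U J E δ X hh μ b0) (hθ : 0 < θ) (hθ1 : θ < 1) (hC : 1 ≤ C) (hr0 : 0 < r0)
    (hU : UG θ C r0 P) (b : Bs 𝒰 f U J P E δ θ C δ0 z x r σ M ρ0 χ φ β v) (L : ℕ) :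
    LS 𝒰 (F1 f z x r σ L) (D1 f U J δ z σ) (P1 P x r L) θ C :=
  fm_ls h hX hθ hθ1 hC hr0 hU (fm1 b L)

theorem g1_ex (h : PS f U J P Cr δ η ρ) (hX : FX f U J E δ X hh μ b0) (hθ : 0 < θ) (hθ1 : θ < 1) (hC : 1 ≤ C) (hr0 : 0 < r0)
    (hU : UG θ C r0 P) (b : Bs 𝒰 f U J P E δ θ C δ0 z x r σ M ρ0 χ φ β v) (L : ℕ) :
    ∃ w sb vs : ℂ, G1 𝒰 f U J P δ M z x r σ φ L w sb vs := by
  have ls := ls1 h hX hθ hθ1 hC hr0 hU b L
  have hL : (0 : ℝ) < (L : ℝ) + 1 := by positivity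
  have hM : 0 < M := lt_of_lt_of_le one_pos b.M1
  obtain ⟨R, hR⟩ : ∃ R : ℕ → ℂ, R = Rl L r := ⟨_, rfl⟩
  have hR0 : ∀ k, R k ≠ 0 := fun k => by rw [hR]; exact (rl_ne b L k).1
  have hRn : ∀ k, ‖R k‖ = ((L : ℝ) + 1) * r k := fun k => by rw [hR]; exact (rl_ne b L k).2
  obtain ⟨g, hg⟩ : ∃ g : ℕ → ℂ → ℂ, g = fun k u => (φ k u - z) / σ k := ⟨_, rfl⟩
  obtain ⟨ch, hch⟩ : ∃ ch : ℕ → ℂ → ℂ, ch = fun k u => (χ k u - x k) / R k := ⟨_, rfl⟩
  obtain ⟨c, hc⟩ : ∃ c : ℕ → ℂ → ℂ, c = fun k u => ch k (β k u) := ⟨_, rfl⟩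
  -- (1) the functions `ch`
  have chd : ∀ᶠ k in (𝒰 : Filter ℕ), DifferentiableOn ℂ (ch k) (ball 0 1) := by
    filter_upwards [b.un] with k hk
    rw [hch]
    exact (hk.cd.sub_const _).div_const _
  have chb : ∀ᶠ k in (𝒰 : Filter ℕ), ∀ u ∈ ball (0 : ℂ) 1, ‖ch k u‖ ≤ M / (L + 1) := by
    filter_upwards [b.un] with k hk u hu
    rw [hch]
    show ‖(χ k u - x k) / R k‖ ≤ _
    rw [norm_div, hRn, div_le_div_iff₀ (mul_pos hL (b.r0 k)) hL]
    have h1 := mul_le_mul_of_nonneg_right (hk.cb u hu) hL.le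
    linarith
  obtain ⟨χ0, χd, χt⟩ := um 𝒰 isOpen_ball chd (fun u hu => ⟨1 - ‖u‖, M / (L + 1), by
    rw [mem_ball_zero_iff] at hu
    linarith, fra_ball hu, by
    filter_upwards [chb] with k hk v hv
    exact hk v (fra_ball hu hv)⟩)
  have hχ0 : deriv χ0 0 ≠ 0 := by
    have h1 : Tendsto (fun k => ‖deriv (ch k) 0‖) (𝒰 : Filter ℕ) (𝓝 ‖deriv χ0 0‖) :=
      ((χt.deriv chd isOpen_ball).tendsto_at (mem_ball_self one_pos)).norm
    have h2 : 1 / (M * (L + 1)) ≤ ‖deriv χ0 0‖ := by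
      refine ge_of_tendsto h1 ?_
      filter_upwards [b.un] with k hk
      have h3 : deriv (ch k) 0 = deriv (χ k) 0 / R k := by
        rw [hch]
        show deriv (fun u => (χ k u - x k) / R k) 0 = _
        rw [deriv_div_const, deriv_sub_const]
      rw [h3, norm_div, hRn, div_le_div_iff₀ (mul_pos hM hL) (mul_pos hL (b.r0 k))]
      have h4 := mul_le_mul_of_nonneg_right hk.cl hL.le
      linarith
    have h5 : 0 < 1 / (M * (L + 1)) := by positivity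
    exact norm_pos_iff.1 (h5.trans_le h2)
  have χi : InjOn χ0 (ball 0 1) := uh_inj 𝒰 isOpen_ball (convex_ball (0 : ℂ) 1).isPreconnected chd χt
    (by
      filter_upwards [b.un] with k hk u hu u' hu' he
      refine hk.ci hu hu' ?_
      rw [hch] at he
      exact sub_left_injective ((div_left_inj' (hR0 k)).1 he)) ⟨0, mem_ball_self one_pos, hχ0⟩
  -- (2) the functions `g`
  have gd : ∀ᶠ k in (𝒰 : Filter ℕ), DifferentiableOn ℂ (g k) (ball 0 1) := by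
    filter_upwards [b.un] with k hk
    rw [hg]
    exact (hk.pu.diff.sub_const _).div_const _
  have gi : ∀ᶠ k in (𝒰 : Filter ℕ), InjOn (g k) (ball 0 1) := by
    filter_upwards [b.un] with k hk u hu u' hu' he
    refine hk.pu.inj hu hu' ?_
    rw [hg] at he
    exact sub_left_injective ((div_left_inj' (b.s0 k)).1 he)
  have g1 : ∀ᶠ k in (𝒰 : Filter ℕ), deriv (g k) 0 = 1 := by
    filter_upwards [b.se] with k hk
    rw [hg]
    show deriv (fun u => (φ k u - z) / σ k) 0 = 1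
    rw [deriv_div_const, deriv_sub_const, ← hk, div_self (b.s0 k)]
  obtain ⟨g0, g0d, gt⟩ := um 𝒰 isOpen_ball gd (fun u hu => by
    have hu1 := mem_ball_zero_iff.1 hu
    obtain ⟨t, ht⟩ : ∃ t : ℝ, t = max ρ0 ((1 + ‖u‖) / 2) := ⟨_, rfl⟩
    have ht1 : t < 1 := by
      rw [ht]
      exact max_lt b.ρ1 (by linarith)
    refine ⟨(1 - ‖u‖) / 2, Pool.Agent.H80.AJ.KK ^ ⌈2 / (1 - t)⌉₊ * 2, by linarith,
      (ball_subset_ball (by linarith)).trans (fra_ball hu), ?_⟩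
    filter_upwards [gd, gi, g1, b.un] with k h1 h2 h3 h4 w hw
    refine fra_bd h1 h2 h3 ht1 (v := v k) (h4.vb.trans (by rw [ht]; exact le_max_left _ _)) ?_ ?_
    · rw [hg]
      show (φ k (v k) - z) / σ k = 0
      rw [h4.vz, sub_self, zero_div]
    · rw [mem_ball, dist_eq_norm] at hw
      have h5 := norm_add_le (w - u) u
      rw [sub_add_cancel] at h5
      have h6 : (1 + ‖u‖) / 2 ≤ t := by
        rw [ht]
        exact le_max_right _ _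
      linarith)
  have g0i : InjOn g0 (ball 0 1) := by
    refine uh_inj 𝒰 isOpen_ball (convex_ball (0 : ℂ) 1).isPreconnected gd gt gi
      ⟨0, mem_ball_self one_pos, ?_⟩
    have h1 : Tendsto (fun k => deriv (g k) 0) (𝒰 : Filter ℕ) (𝓝 (deriv g0 0)) :=
      (gt.deriv gd isOpen_ball).tendsto_at (mem_ball_self one_pos)
    have h2 : Tendsto (fun k => deriv (g k) 0) (𝒰 : Filter ℕ) (𝓝 1) := by
      refine Tendsto.congr' ?_ tendsto_const_nhds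
      filter_upwards [g1] with k hk
      exact hk.symm
    rw [tendsto_nhds_unique h1 h2]
    exact one_ne_zero
  -- (3) the composite functions `c`
  have cd : ∀ᶠ k in (𝒰 : Filter ℕ), DifferentiableOn ℂ (c k) (ball 0 1) := by
    filter_upwards [chd, b.un] with k hk1 hk
    rw [hc]
    exact hk1.comp (bt_diff hθ hθ1 hk.pu) fun u hu =>
      mem_ball_zero_iff.2 (bt_lt hθ hθ1 hk.pu (mem_ball_zero_iff.1 hu))
  have cb : ∀ᶠ k in (𝒰 : Filter ℕ), ∀ u ∈ ball (0 : ℂ) 1, ‖c k u‖ ≤ M / (L + 1) := by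
    filter_upwards [chb, b.un] with k hk1 hk u hu
    rw [hc]
    exact hk1 _ (mem_ball_zero_iff.2 (bt_lt hθ hθ1 hk.pu (mem_ball_zero_iff.1 hu)))
  obtain ⟨c0, c0d, ct⟩ := um 𝒰 isOpen_ball cd (fun u hu => ⟨1 - ‖u‖, M / (L + 1), by
    rw [mem_ball_zero_iff] at hu
    linarith, fra_ball hu, by
    filter_upwards [cb] with k hk v hv
    exact hk v (fra_ball hu hv)⟩)
  obtain ⟨ρ1, hρ1, hρ2, hbd⟩ := bt_bd hθ hθ1 (by norm_num : (0 : ℝ) ≤ 1 / 2) (by norm_num : (1 : ℝ) / 2 < 1)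
  have hval : ∀ u' : ℂ, ‖u'‖ ≤ 1 / 2 → ∃ v1 ∈ ball (0 : ℂ) 1, c0 v1 = χ0 u' := by
    intro u' hu'
    have h1 : ∀ᶠ k in (𝒰 : Filter ℕ), ∃ y : ℂ, ‖y‖ ≤ ρ1 ∧ β k y = u' := by
      filter_upwards [b.un] with k hk
      obtain ⟨y, hy, hy2⟩ := bt_sur hθ hθ1 hk.pu (u := u') (by linarith)
      exact ⟨y, hbd hk.pu y hy (by rw [hy2]; exact hu'), hy2⟩
    obtain ⟨y, hy⟩ := h1.choice
    have hy1 : ∀ᶠ k in (𝒰 : Filter ℕ), ‖y k‖ ≤ ρ1 := by
      filter_upwards [hy] with k hk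
      exact hk.1
    obtain ⟨v1, hv1, hv2⟩ := ul_ex 𝒰 hy1
    refine ⟨v1, mem_ball_zero_iff.2 (hv2.trans_lt hρ2), ?_⟩
    have h2 := fra_lim c0d.continuousOn ct hρ2 hy1 hv1 hv2
    have h3 : Tendsto (fun k => ch k u') (𝒰 : Filter ℕ) (𝓝 (χ0 u')) :=
      χt.tendsto_at (mem_ball_zero_iff.2 (by linarith))
    have h4 : Tendsto (fun k => c k (y k)) (𝒰 : Filter ℕ) (𝓝 (χ0 u')) := by
      refine h3.congr' ?_
      filter_upwards [hy] with k hk
      rw [hc]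
      show ch k u' = ch k (β k (y k))
      rw [hk.2]
    exact tendsto_nhds_unique h2 h4
  obtain ⟨u0, hu0, hu0d⟩ : ∃ u ∈ ball (0 : ℂ) 1, deriv c0 u ≠ 0 := by
    by_contra hcon
    push Not at hcon
    obtain ⟨y1, hy1, e1⟩ := hval 0 (by rw [norm_zero]; norm_num)
    obtain ⟨y2, hy2, e2⟩ := hval ((1 / 2 : ℝ) : ℂ) (by
      rw [Complex.norm_real, Real.norm_of_nonneg (by norm_num)])
    have h1 := isOpen_ball.is_const_of_deriv_eq_zero (convex_ball (0 : ℂ) 1).isPreconnected c0d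
      (fun u hu => hcon u hu) hy1 hy2
    rw [e1, e2] at h1
    have h2 := χi (mem_ball_self one_pos) (mem_ball_zero_iff.2 (by
      rw [Complex.norm_real, Real.norm_of_nonneg (by norm_num)]
      norm_num)) h1
    have h3 : (0 : ℝ) = 1 / 2 := by exact_mod_cast h2
    norm_num at h3
  -- (4) the point
  obtain ⟨vs, ⟨hvs, hvd⟩, hvP⟩ : ∃ vs, (vs ∈ ball (0 : ℂ) 1 ∧ deriv c0 vs ≠ 0) ∧ c0 vs ∉ Ph 𝒰 (P1 P x r L) := by
    by_contra hcon
    push Not at hcon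
    have hV : {y : ℂ | y ∈ ball (0 : ℂ) 1 ∧ deriv c0 y ≠ 0} ∈ 𝓝 u0 := by
      have h1 : ContinuousAt (deriv c0) u0 :=
        ((c0d.deriv isOpen_ball).continuousOn).continuousAt (isOpen_ball.mem_nhds hu0)
      exact Filter.inter_mem (isOpen_ball.mem_nhds hu0) (h1.eventually_ne hu0d)
    have h2 : HasStrictDerivAt c0 (deriv c0 u0) u0 :=
      (c0d.analyticAt (isOpen_ball.mem_nhds hu0)).hasStrictDerivAt
    have h3 : c0 '' {y : ℂ | y ∈ ball (0 : ℂ) 1 ∧ deriv c0 y ≠ 0} ∈ 𝓝 (c0 u0) := by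
      rw [← h2.map_nhds_eq hu0d]
      exact image_mem_map hV
    have h4 : Ph 𝒰 (P1 P x r L) ∈ 𝓝 (c0 u0) := by
      refine mem_of_superset h3 ?_
      rintro _ ⟨y, hy, rfl⟩
      exact hcon y hy
    have h5 := mem_interior_iff_mem_nhds.2 h4
    rw [ph_int ls] at h5
    exact h5
  have hg0 : deriv g0 vs ≠ 0 := uh_der isOpen_ball g0d g0i hvs
  have hgk : Tendsto (fun k => g k vs) (𝒰 : Filter ℕ) (𝓝 (g0 vs)) := gt.tendsto_at hvs
  have hck : Tendsto (fun k => c k vs) (𝒰 : Filter ℕ) (𝓝 (c0 vs)) := ct.tendsto_at hvs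
  have hgd : Tendsto (fun k => deriv (g k) vs) (𝒰 : Filter ℕ) (𝓝 (deriv g0 vs)) :=
    (gt.deriv gd isOpen_ball).tendsto_at hvs
  have hcd : Tendsto (fun k => deriv (c k) vs) (𝒰 : Filter ℕ) (𝓝 (deriv c0 vs)) :=
    (ct.deriv cd isOpen_ball).tendsto_at hvs
  have hF : ∀ᶠ k in (𝒰 : Filter ℕ), ∀ u ∈ ball (0 : ℂ) 1, g k u ∈ D1 f U J δ z σ k ∧
      F1 f z x r σ L k (g k u) = c k u := by
    filter_upwards [b.un] with k hk u hu
    have h1 : z + σ k * g k u = φ k u := by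
      rw [hg]
      show z + σ k * ((φ k u - z) / σ k) = φ k u
      rw [mul_div_cancel₀ _ (b.s0 k)]
      ring
    obtain ⟨h2, h3⟩ := hk.pu.val u hu
    refine ⟨?_, ?_⟩
    · show z + σ k * g k u ∈ dm f U J δ k
      rw [h1]
      exact h2
    · show (f^[k] (z + σ k * g k u) - x k) / Rl L r k = c k u
      rw [h1, h3, hc, hch, hR]
  have hdF : Tendsto (fun k => ‖deriv (F1 f z x r σ L k) (g k vs)‖) (𝒰 : Filter ℕ)
      (𝓝 (‖deriv c0 vs‖ / ‖deriv g0 vs‖)) := by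
    have h1 : Tendsto (fun k => ‖deriv (c k) vs‖ / ‖deriv (g k) vs‖) (𝒰 : Filter ℕ)
        (𝓝 (‖deriv c0 vs‖ / ‖deriv g0 vs‖)) :=
      hcd.norm.div hgd.norm (norm_ne_zero_iff.2 hg0)
    refine h1.congr' ?_
    filter_upwards [hF, gd, gi, cd] with k h2 h3 h4 h5
    have h6 : deriv (g k) vs ≠ 0 := uh_der isOpen_ball h3 h4 hvs
    have h7 : HasDerivAt (g k) (deriv (g k) vs) vs :=
      (h3.differentiableAt (isOpen_ball.mem_nhds hvs)).hasDerivAt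
    have h8 : HasDerivAt (F1 f z x r σ L k) (deriv (F1 f z x r σ L k) (g k vs)) (g k vs) :=
      ((ls.Fd k).differentiableAt ((ls.Do k).mem_nhds (h2 vs hvs).1)).hasDerivAt
    have h9 : HasDerivAt (fun u => F1 f z x r σ L k (g k u))
        (deriv (F1 f z x r σ L k) (g k vs) * deriv (g k) vs) vs := h8.comp vs h7
    have h10 : (fun u => F1 f z x r σ L k (g k u)) =ᶠ[𝓝 vs] c k := by
      filter_upwards [isOpen_ball.mem_nhds hvs] with u hu
      exact (h2 u hu).2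
    have h11 : deriv (c k) vs = deriv (F1 f z x r σ L k) (g k vs) * deriv (g k) vs :=
      (h9.congr_of_eventuallyEq h10.symm).deriv
    rw [h11, norm_mul, mul_div_assoc, div_self (norm_ne_zero_iff.2 h6), mul_one]
  have hq : 0 < ‖deriv c0 vs‖ / ‖deriv g0 vs‖ := div_pos (norm_pos_iff.2 hvd) (norm_pos_iff.2 hg0)
  obtain ⟨q, hqq⟩ : ∃ q, q = ‖deriv c0 vs‖ / ‖deriv g0 vs‖ := ⟨_, rfl⟩
  rw [← hqq] at hdF hq
  refine ⟨c0 vs, g0 vs, vs, mem_ball_zero_iff.1 hvs, ?_, ⟨hvP, max (2 * q) (2 / q), fun k => g k vs, ?_, hgk, ?_⟩, ?_⟩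
  · refine le_of_tendsto hck.norm ?_
    filter_upwards [cb] with k hk
    exact hk vs hvs
  · filter_upwards [hF, hdF.eventually (lt_mem_nhds (half_lt_self hq)),
      hdF.eventually (gt_mem_nhds (by linarith : q < 2 * q))] with k h1 h2 h3
    refine ⟨(h1 vs hvs).1, ?_, h3.le.trans (le_max_left _ _)⟩
    calc (1 : ℝ) = 2 / q * (q / 2) := by field_simp
      _ ≤ max (2 * q) (2 / q) * ‖deriv (F1 f z x r σ L k) (g k vs)‖ :=
        mul_le_mul (le_max_right _ _) h2.le (by positivity)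
          ((by positivity : (0 : ℝ) ≤ 2 / q).trans (le_max_right _ _))
  · refine hck.congr' ?_
    filter_upwards [hF] with k hk
    exact (hk vs hvs).2.symm
  · rw [hg] at hgk
    exact hgk

end Pool.Agent.H31.IN
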