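import Pool.Agent.H31.IN.Ptb

/-!
# THEOREM UD, INI: the second frames

Index `n = Nat.pair L k`, ultrafilter `Wf 𝒰`: `ev_w`. `pr`: `Nat.unpair_pair`.
`fm2`: `zE`, `xP`, `R0`, `σ0`: immediate (`B2.q`: `Q2.zE`, `Q2.dz`; `rl_ne`). `Rt`: `ev_w`: for every `L`: `Rl L r k → 0` (`rl_t`). `σt`: `Sw = (Sw / σ k) σ k`: for every `L` `Q2.lt`: `Rl L r k / deriv (f^[k]) (z' L k) / σ k → lam L`, `σ k → 0`: the product tends to `0` along `𝒰`; `ev_w`.
`rel`: `z' + S p = z + σ ((z' - z) / σ + (S / σ) p)` (`σ k ≠ 0`): so `F2 (pair L k) p = F1 L k (a + l p)` etc. by the definitions of `Fn`, `Dn`, `Pn`, with `a = (z' L k - z) / σ k`, `l = Rl L r k / deriv (f^[k]) (z' L k) / σ k`.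
`gd2`: `F2 n 0 = (f^[k] (z' L k) - x k) / Rl L r k`: bounded by `2` for almost all `n` (`Q2.off`, `ev_w`), so it tends to a `b'` along `Wf 𝒰` (`ul_ex`). `b' ∉ Ph (Wf 𝒰) (P2 ..)`: otherwise there are points of `P2 n` within `c0 / 2` of `b'`, and `b'` is within `c0 / 2` of `F2 n 0` for almost all `n`: contradiction to `off`. `0 ∈ D2 n` (`off`), `deriv (F2 n) 0 = S * deriv (f^[k]) (z' L k) / R = 1` (chain rule; `f^[k]` is differentiable at `z' L k ∈ dm`: `dm_diff`, `dm_open`). So `Gd .. b' 0` with the constant sequence `0` and `M = 1`.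
-/

set_option autoImplicit false

open Filter Topology Metric Set MeasureTheory

namespace Pool.Agent.H31.IN

open Pool.Agent.H56.UD Pool.Agent.H43.UB

variable {f : ℂ → ℂ} {U J P Cr E : Set ℂ} {δ b0 : ℝ} {η : ℂ → ℂ → ℂ} {ρ : ℝ} {X hh μ : ℂ → ℂ} {𝒰 : Ultrafilter ℕ}
  {θ C r0 δ0 M ρ0 c0 : ℝ} {z : ℂ} {x σ v : ℕ → ℂ} {r : ℕ → ℝ} {χ φ β : ℕ → ℂ → ℂ} {w sb vs s1 lam : ℕ → ℂ} {z' : ℕ → ℕ → ℂ}

private theorem frb_t {g : ℕ → ℂ} {a : ℂ}
    (h : ∀ L, Tendsto (fun k => g (Nat.pair L k)) (𝒰 : Filter ℕ) (𝓝 a)) : Tendsto g (Wf 𝒰 : Filter ℕ) (𝓝 a) := by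
  intro s hs
  show ∀ᶠ n in (Wf 𝒰 : Filter ℕ), g n ∈ s
  rw [ev_w]
  exact Eventually.of_forall fun L => h L hs

private theorem frb_R (L k : ℕ) : Rw r (Nat.pair L k) = Rl L r k := by
  unfold Rw
  rw [Nat.unpair_pair]

private theorem frb_Z (z' : ℕ → ℕ → ℂ) (L k : ℕ) : Zw z' (Nat.pair L k) = z' L k := by
  unfold Zw
  rw [Nat.unpair_pair]

private theorem frb_K (L k : ℕ) : Kw (Nat.pair L k) = k := by
  unfold Kw
  rw [Nat.unpair_pair]

private theorem frb_X (L k : ℕ) : Xw x (Nat.pair L k) = x k := by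
  unfold Xw
  rw [Nat.unpair_pair]

private theorem frb_S (z' : ℕ → ℕ → ℂ) (L k : ℕ) :
    Sw f r z' (Nat.pair L k) = Rl L r k / deriv (f^[k]) (z' L k) := by
  unfold Sw
  rw [frb_R, frb_K, frb_Z]

theorem fm2 (b : Bs 𝒰 f U J P E δ θ C δ0 z x r σ M ρ0 χ φ β v) (b2 : B2 𝒰 f U J P E δ M z x r σ φ c0 w sb vs s1 lam z') :
    Fm (Wf 𝒰) E P (Zw z') Kw (Xw x) (Rw r) (Sw f r z') := by
  refine ⟨fun n => (b2.q _).zE _, fun n => b.xP _, fun n => (rl_ne b _ _).1,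
    fun n => div_ne_zero (rl_ne b _ _).1 ((b2.q _).dz _), ?_, ?_⟩
  · refine frb_t fun L => ?_
    have h1 : (fun k => Rw r (Nat.pair L k)) = Rl L r := funext fun k => frb_R L k
    rw [h1]
    exact rl_t b L
  · refine frb_t fun L => ?_
    have h1 : (fun k => Sw f r z' (Nat.pair L k)) =
        fun k => Rl L r k / deriv (f^[k]) (z' L k) / σ k * σ k := funext fun k => by
      rw [frb_S, div_mul_cancel₀ _ (b.s0 k)]
    rw [h1]
    have h2 := (b2.q L).lt.mul b.st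
    rwa [mul_zero] at h2

theorem ls2 (h : PS f U J P Cr δ η ρ) (hX : FX f U J E δ X hh μ b0) (hθ : 0 < θ) (hθ1 : θ < 1) (hC : 1 ≤ C) (hr0 : 0 < r0)
    (hU : UG θ C r0 P) (b : Bs 𝒰 f U J P E δ θ C δ0 z x r σ M ρ0 χ φ β v)
    (b2 : B2 𝒰 f U J P E δ M z x r σ φ c0 w sb vs s1 lam z') : LS (Wf 𝒰) (F2 f x r z') (D2 f U J δ r z') (P2 P x r) θ C :=
  fm_ls h hX hθ hθ1 hC hr0 hU (fm2 b b2)

/-- the second frames in the coordinates of the first ones -/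
theorem rel (b : Bs 𝒰 f U J P E δ θ C δ0 z x r σ M ρ0 χ φ β v) (z' : ℕ → ℕ → ℂ) (L k : ℕ) (p : ℂ) :
    F2 f x r z' (Nat.pair L k) p =
      F1 f z x r σ L k ((z' L k - z) / σ k + Rl L r k / deriv (f^[k]) (z' L k) / σ k * p) ∧
    (p ∈ D2 f U J δ r z' (Nat.pair L k) ↔
      (z' L k - z) / σ k + Rl L r k / deriv (f^[k]) (z' L k) / σ k * p ∈ D1 f U J δ z σ k) ∧
    P2 P x r (Nat.pair L k) = P1 P x r L k := by
  have h0 := b.s0 k
  have h1 : z + σ k * ((z' L k - z) / σ k + Rl L r k / deriv (f^[k]) (z' L k) / σ k * p) =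
      z' L k + Rl L r k / deriv (f^[k]) (z' L k) * p := by
    have e1 : σ k * ((z' L k - z) / σ k) = z' L k - z := mul_div_cancel₀ _ h0
    have e2 : σ k * (Rl L r k / deriv (f^[k]) (z' L k) / σ k * p) = Rl L r k / deriv (f^[k]) (z' L k) * p := by
      rw [← mul_assoc, mul_div_cancel₀ _ h0]
    rw [mul_add, e1, e2]
    ring
  refine ⟨?_, ?_, ?_⟩
  · show (f^[Kw (Nat.pair L k)] (Zw z' (Nat.pair L k) + Sw f r z' (Nat.pair L k) * p) - Xw x (Nat.pair L k)) /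
        Rw r (Nat.pair L k) = (f^[k] (z + σ k * _) - x k) / Rl L r k
    rw [frb_K, frb_Z, frb_S, frb_X, frb_R, h1]
  · show Zw z' (Nat.pair L k) + Sw f r z' (Nat.pair L k) * p ∈ dm f U J δ (Kw (Nat.pair L k)) ↔
        z + σ k * _ ∈ dm f U J δ k
    rw [frb_K, frb_Z, frb_S, h1]
  · ext y
    show Xw x (Nat.pair L k) + Rw r (Nat.pair L k) * y ∈ P ↔ x k + Rl L r k * y ∈ P
    rw [frb_X, frb_R]

theorem gd2 (h : PS f U J P Cr δ η ρ) (b : Bs 𝒰 f U J P E δ θ C δ0 z x r σ M ρ0 χ φ β v)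
    (b2 : B2 𝒰 f U J P E δ M z x r σ φ c0 w sb vs s1 lam z') :
    ∃ b' : ℂ, Gd (Wf 𝒰) (F2 f x r z') (D2 f U J δ r z') (P2 P x r) b' 0 := by
  have hF : ∀ n, F2 f x r z' n 0 = (f^[Kw n] (Zw z' n) - Xw x n) / Rw r n := fun n => by
    show (f^[Kw n] (Zw z' n + Sw f r z' n * 0) - Xw x n) / Rw r n = _
    rw [mul_zero, add_zero]
  have hoff : ∀ᶠ n in (Wf 𝒰 : Filter ℕ), Zw z' n ∈ dm f U J δ (Kw n) ∧ ‖F2 f x r z' n 0‖ ≤ 2 ∧
      ∀ u ∈ ball (F2 f x r z' n 0) c0, u ∉ P2 P x r n := by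
    rw [ev_w]
    refine Eventually.of_forall fun L => ?_
    filter_upwards [(b2.q L).off] with k hk
    rw [hF, frb_K, frb_Z, frb_X, frb_R, (rel b z' L k 0).2.2]
    exact hk
  obtain ⟨b', hb', -⟩ := ul_ex (Wf 𝒰) (hoff.mono fun n hn => hn.2.1)
  refine ⟨b', ?_, 1, fun _ => 0, ?_, tendsto_const_nhds, hb'⟩
  · intro hc
    have h1 := hc (c0 / 2) (half_pos b2.c1)
    have h2 : ∀ᶠ n in (Wf 𝒰 : Filter ℕ), ‖F2 f x r z' n 0 - b'‖ < c0 / 2 := by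
      have h3 := (Metric.tendsto_nhds.1 hb') (c0 / 2) (half_pos b2.c1)
      filter_upwards [h3] with n hn
      rwa [dist_eq_norm] at hn
    obtain ⟨n, ⟨⟨y, hy, hyb⟩, hn2⟩, hn3⟩ := ((h1.and h2).and hoff).exists
    refine hn3.2.2 y ?_ hy
    rw [mem_ball, dist_eq_norm]
    have h4 : y - F2 f x r z' n 0 = (y - b') - (F2 f x r z' n 0 - b') := by ring
    rw [h4]
    calc ‖(y - b') - (F2 f x r z' n 0 - b')‖ ≤ ‖y - b'‖ + ‖F2 f x r z' n 0 - b'‖ := norm_sub_le _ _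
      _ < c0 := by linarith
  · filter_upwards [hoff] with n hn
    have hm : Zw z' n + Sw f r z' n * 0 ∈ dm f U J δ (Kw n) := by
      rw [mul_zero, add_zero]
      exact hn.1
    have h1 : HasDerivAt (f^[Kw n]) (deriv (f^[Kw n]) (Zw z' n + Sw f r z' n * 0)) (Zw z' n + Sw f r z' n * 0) :=
      ((dm_diff h (Kw n)).differentiableAt ((dm_open h (Kw n)).mem_nhds hm)).hasDerivAt
    have h2 : HasDerivAt (fun s : ℂ => Zw z' n + Sw f r z' n * s) (Sw f r z' n) 0 := by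
      have h3 := ((hasDerivAt_id (0 : ℂ)).const_mul (Sw f r z' n)).const_add (Zw z' n)
      rwa [mul_one] at h3
    have h4 : HasDerivAt (F2 f x r z' n)
        (deriv (f^[Kw n]) (Zw z' n + Sw f r z' n * 0) * Sw f r z' n / Rw r n) 0 :=
      ((h1.comp (0 : ℂ) h2).sub_const (Xw x n)).div_const (Rw r n)
    have hd : deriv (f^[Kw n]) (Zw z' n) ≠ 0 := (b2.q _).dz _
    have hR : Rw r n ≠ 0 := (rl_ne b _ _).1
    have h5 : deriv (f^[Kw n]) (Zw z' n + Sw f r z' n * 0) * Sw f r z' n / Rw r n = 1 := by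
      rw [mul_zero, add_zero]
      unfold Sw
      rw [mul_div_cancel₀ _ hd, div_self hR]
    rw [h5] at h4
    refine ⟨hm, ?_, ?_⟩
    · rw [h4.deriv, norm_one, one_mul]
    · rw [h4.deriv, norm_one]

end Pool.Agent.H31.IN
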