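import Pool.Agent.H56.UD.DN

/-!
# THEOREM UD, INI: no cones over arbitrary discs

PROOF of `ncx`. Let `ε1` be the constant of `nc0` for `δ' / 4` and `M'`, `ε2` the one of `nc` for `δ' / 4` and `M'`, `M' = M * KK` (`KK` the distortion constant of H80/AJ, `M' ≥ M`), `ε = min ε1 ε2`. CASE `ball y (δ' / 4) ∩ J = ∅`: `nc0` at `y` with the disc `ball y (δ' / 4) ⊆ thickening δ J \ J`. CASE `y' ∈ J ∩ ball y (δ' / 4)`: `ball y' (δ' / 4) ⊆ ball y (δ' / 2)`; `nc` at `y'`; `‖deriv G y‖ ≤ KK ‖deriv G y'‖` by `distort` (`G` is injective on `ball y δ'` since `f^[k] (G u) = u`), so `σ ≤ M ‖deriv G y‖ ≤ M' ‖deriv G y'‖`; values: `‖G u - z‖ ≤ M σ ≤ M' σ` (if `M < 0` then `σ ≤ M ‖deriv G y‖` is impossible for `σ > 0`; so `M ≥ 0`; `KK ≥ 1`).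
-/

set_option autoImplicit false

open Filter Topology Metric Set MeasureTheory

namespace Pool.Agent.H31.IN

open Pool.Agent.H56.UD

variable {f : ℂ → ℂ} {U J P Cr E : Set ℂ} {δ b0 : ℝ} {η : ℂ → ℂ → ℂ} {ρ : ℝ} {X hh μ : ℂ → ℂ}

theorem ncx (h : PS f U J P Cr δ η ρ) (hX : FX f U J E δ X hh μ b0) {δ' M : ℝ} (hδ : 0 < δ') :
    ∃ ε : ℝ, 0 < ε ∧ ∀ z ∈ E, ∀ (k : ℕ) (y : ℂ) (σ : ℝ) (G : ℂ → ℂ), ball y δ' ⊆ thickening δ J → 0 < σ →
      DifferentiableOn ℂ G (ball y δ') →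
      (∀ u ∈ ball y δ', G u ∈ dm f U J δ k ∧ f^[k] (G u) = u ∧ ‖G u - z‖ ≤ M * σ) → σ ≤ M * ‖deriv G y‖ → ε ≤ σ := by
  by_cases hM : 0 < M
  swap
  · refine ⟨1, one_pos, fun z _ k y σ G _ hσ _ _ h2 => ?_⟩
    exact absurd (hσ.trans_le (h2.trans (mul_nonpos_of_nonpos_of_nonneg (not_lt.1 hM)
      (norm_nonneg _)))) (lt_irrefl _)
  have hK := Pool.Agent.H80.AJ.one_le_KK
  have hδ4 : 0 < δ' / 4 := by positivity
  obtain ⟨ε1, hε1, h1⟩ := nc0 h hX (M := Pool.Agent.H80.AJ.KK * M) hδ4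
  obtain ⟨ε2, hε2, h2⟩ := nc h hX (M := Pool.Agent.H80.AJ.KK * M) hδ4
  refine ⟨min ε1 ε2, lt_min hε1 hε2, fun z hz k y σ G hy hσ hG h3 h4 => ?_⟩
  have hi : InjOn G (ball y δ') := fun u hu v hv e => by
    rw [← (h3 u hu).2.1, ← (h3 v hv).2.1, e]
  have hMσ : M * σ ≤ Pool.Agent.H80.AJ.KK * M * σ := by
    rw [mul_assoc]
    exact le_mul_of_one_le_left (by positivity) hK
  by_cases hd : ∃ y' ∈ J, y' ∈ ball y (δ' / 4)
  · obtain ⟨y', hyJ, hy'⟩ := hd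
    have hsub : ball y' (δ' / 4) ⊆ ball y δ' := by
      intro u hu
      rw [mem_ball] at hu hy' ⊢
      have := dist_triangle u y' y
      linarith
    refine (min_le_right _ _).trans (h2 z hz k y' σ G hyJ (hsub.trans hy) hσ (hG.mono hsub)
      (fun u hu => ⟨(h3 u (hsub hu)).1, (h3 u (hsub hu)).2.1, (h3 u (hsub hu)).2.2.trans hMσ⟩) ?_)
    have h5 : ‖deriv G y‖ ≤ Pool.Agent.H80.AJ.KK * ‖deriv G y'‖ := by
      refine Pool.Agent.H80.AJ.distort hδ hG hi (mem_closedBall_self (by positivity)) ?_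
      rw [mem_ball] at hy'
      rw [mem_closedBall]
      linarith
    calc σ ≤ M * ‖deriv G y‖ := h4
      _ ≤ M * (Pool.Agent.H80.AJ.KK * ‖deriv G y'‖) := mul_le_mul_of_nonneg_left h5 hM.le
      _ = Pool.Agent.H80.AJ.KK * M * ‖deriv G y'‖ := by ring
  · have hsub : ball y (δ' / 4) ⊆ ball y δ' := ball_subset_ball (by linarith)
    refine (min_le_left _ _).trans (h1 z hz k y σ G (fun u hu => ⟨hy (hsub hu), fun hJ => hd ⟨u, hJ, hu⟩⟩) hσ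
      (hG.mono hsub) (fun u hu => ⟨(h3 u (hsub hu)).1, (h3 u (hsub hu)).2.1, (h3 u (hsub hu)).2.2.trans hMσ⟩) ?_)
    refine h4.trans ?_
    rw [mul_assoc]
    exact le_mul_of_one_le_left (by positivity) hK

end Pool.Agent.H31.IN
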