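import Pool.Agent.H31.IN.Defs
import Pool.Agent.H43.UB.UH

/-!
# THEOREM UD, INI: pull back units

`PU F D θ ψ φ β`: `F ∘ φ = ψ ∘ β`, `β v = v` for all `v` or `β v = (v ^ 2 + α) / (1 + conj α v ^ 2)` for all `v`, `‖α‖ ≤ θ`.
`bt_lt`: `‖β v‖ < 1` for `‖v‖ < 1`: `|v^2 + α|^2 < |1 + conj α v^2|^2` (difference `(1 - |v|^4)(1 - |α|^2) > 0`). `bt_diff`: the denominator is not `0` (`|α v^2| < 1`). `bt_bd`: let `u = β v`, `‖u‖ ≤ ρ'`; then `v ^ 2 = (u - α) / (1 - conj α u)` and `|v| ^ 2 ≤ (ρ' + θ) / (1 + ρ' θ) < 1` (for `|u| ≤ ρ'`, `|α| ≤ θ`: `|(u - α) / (1 - conj α u)| ≤ (|u| + |α|) / (1 + |u| |α|)`, increasing in both); `ρ0 = max ρ' (sqrt ((ρ' + θ) / (1 + ρ' θ)))`; a weaker explicit bound is enough, e.g. from `1 - |v|^4 = (1 - |u|^2)(1 - |α|^2) / |1 - conj α u|^2 ≥ (1 - ρ'^2)(1 - θ^2) / 4`, so `|v|^4 ≤ 1 - (1 - ρ'^2)(1 - θ^2) / 4`.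
`bt_sur`: for `u ∈ ball 0 1` there is `v ∈ ball 0 1` with `β v = u` (`v` a square root of `(u - α) / (1 - conj α u)`: `Complex.cpow` or `IsAlgClosed.exists_pow_nat_eq`).
`pu_con`: by `bt_bd` there is `ρ0 < 1` with `K ∩ φ '' ball 0 1 = K ∩ φ '' closedBall 0 ρ0`: if `s = φ v ∈ K` then `ψ (β v) = F s = ψ u`, `‖u‖ ≤ ρ'`, so `β v = u` (injectivity) and `‖v‖ ≤ ρ0`. So `K` is covered by the disjoint (on `K`) open sets `φ '' ball 0 1` (`uh_open`) and `(φ '' closedBall 0 ρ0)ᶜ` (compact image): `IsPreconnected.subset_left_of_subset_union`.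
`pu_down`, `gd_down`, `lf_down`: the definitions (`Fn`, `Dn`, `Pn`) and `R n ≠ 0`, `σ n ≠ 0`.
-/

set_option autoImplicit false

open Filter Topology Metric Set MeasureTheory

namespace Pool.Agent.H31.IN

open Pool.Agent.H56.UD Pool.Agent.H43.UB

variable {f : ℂ → ℂ} {U J P : Set ℂ} {δ : ℝ}

private theorem puc_idn (α w : ℂ) :
    ‖1 + (starRingEnd ℂ) α * w‖ ^ 2 - ‖w + α‖ ^ 2 = (1 - ‖w‖ ^ 2) * (1 - ‖α‖ ^ 2) := by
  rw [← Complex.normSq_eq_norm_sq, ← Complex.normSq_eq_norm_sq, ← Complex.normSq_eq_norm_sq,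
    ← Complex.normSq_eq_norm_sq]
  simp only [Complex.normSq_apply, Complex.add_re, Complex.add_im, Complex.mul_re, Complex.mul_im,
    Complex.conj_re, Complex.conj_im, Complex.one_re, Complex.one_im]
  ring

private theorem puc_low (α w : ℂ) {θ : ℝ} (hα : ‖α‖ ≤ θ) (hw : ‖w‖ ≤ 1) :
    1 - θ ≤ ‖1 + (starRingEnd ℂ) α * w‖ := by
  have h1 : ‖(starRingEnd ℂ) α * w‖ ≤ θ := by
    rw [norm_mul, RCLike.norm_conj]
    calc ‖α‖ * ‖w‖ ≤ ‖α‖ * 1 := mul_le_mul_of_nonneg_left hw (norm_nonneg _)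
      _ ≤ θ := by rw [mul_one]; exact hα
  have h2 : ‖(1 : ℂ)‖ ≤ ‖1 + (starRingEnd ℂ) α * w‖ + ‖(starRingEnd ℂ) α * w‖ := by
    have h3 : (1 : ℂ) = (1 + (starRingEnd ℂ) α * w) - (starRingEnd ℂ) α * w := by ring
    calc ‖(1 : ℂ)‖ = ‖(1 + (starRingEnd ℂ) α * w) - (starRingEnd ℂ) α * w‖ := by rw [← h3]
      _ ≤ _ := norm_sub_le _ _
  rw [norm_one] at h2
  linarith

private theorem puc_sq {v : ℂ} (hv : ‖v‖ < 1) : ‖v ^ 2‖ < 1 := by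
  rw [norm_pow]
  exact pow_lt_one₀ (norm_nonneg _) hv two_ne_zero

theorem bt_lt {F : ℂ → ℂ} {D : Set ℂ} {θ : ℝ} {ψ φ β : ℂ → ℂ} (hθ : 0 < θ) (hθ1 : θ < 1) (h : PU F D θ ψ φ β) {v : ℂ} (hv : ‖v‖ < 1) :
    ‖β v‖ < 1 := by
  rcases h.typ with h1 | ⟨α, hα, h1⟩
  · rw [h1 v]
    exact hv
  · have hw := puc_sq hv
    have h2 := puc_idn α (v ^ 2)
    have h3 := puc_low α (v ^ 2) hα hw.le
    have h4 : 0 < ‖1 + (starRingEnd ℂ) α * v ^ 2‖ := by linarith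
    rw [h1 v, norm_div, div_lt_one h4]
    have h5 : 0 < (1 - ‖v ^ 2‖ ^ 2) * (1 - ‖α‖ ^ 2) := by
      apply mul_pos
      · have := pow_lt_one₀ (norm_nonneg _) hw two_ne_zero
        linarith
      · have := pow_lt_one₀ (norm_nonneg α) (lt_of_le_of_lt hα hθ1) two_ne_zero
        linarith
    refine lt_of_pow_lt_pow_left₀ 2 h4.le ?_
    linarith

theorem bt_diff {F : ℂ → ℂ} {D : Set ℂ} {θ : ℝ} {ψ φ β : ℂ → ℂ} (hθ : 0 < θ) (hθ1 : θ < 1) (h : PU F D θ ψ φ β) :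
    DifferentiableOn ℂ β (ball 0 1) := by
  rcases h.typ with h1 | ⟨α, hα, h1⟩
  · exact differentiableOn_id.congr fun v _ => h1 v
  · refine DifferentiableOn.congr (f := fun v : ℂ => (v ^ 2 + α) / (1 + (starRingEnd ℂ) α * v ^ 2))
      ?_ fun v _ => h1 v
    refine DifferentiableOn.div (by fun_prop) (by fun_prop) fun v hv => ?_
    have h3 := puc_low α (v ^ 2) hα (puc_sq (mem_ball_zero_iff.1 hv)).le
    have h4 : 0 < ‖1 + (starRingEnd ℂ) α * v ^ 2‖ := by linarith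
    exact norm_pos_iff.1 h4

theorem bt_bd {θ ρ' : ℝ} (hθ : 0 < θ) (hθ1 : θ < 1) (h0 : 0 ≤ ρ') (h1 : ρ' < 1) : ∃ ρ0 : ℝ, 0 < ρ0 ∧ ρ0 < 1 ∧
    ∀ {F : ℂ → ℂ} {D : Set ℂ} {ψ φ β : ℂ → ℂ}, PU F D θ ψ φ β → ∀ v : ℂ, ‖v‖ < 1 → ‖β v‖ ≤ ρ' → ‖v‖ ≤ ρ0 := by
  set κ : ℝ := (1 - ρ' ^ 2) * (1 - θ) ^ 2 with hκ
  have hρ2 : ρ' ^ 2 < 1 := pow_lt_one₀ h0 h1 two_ne_zero
  have hκ0 : 0 < κ := mul_pos (by linarith) (pow_pos (by linarith) 2)
  have hκ1 : κ ≤ 1 := by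
    rw [hκ]
    have e1 : 1 - ρ' ^ 2 ≤ 1 := by linarith [sq_nonneg ρ']
    have e2 : (1 - θ) ^ 2 ≤ 1 := pow_le_one₀ (by linarith) (by linarith)
    exact mul_le_one₀ e1 (sq_nonneg _) e2
  refine ⟨max ρ' (1 - κ / 4), lt_max_of_lt_right (by linarith), max_lt h1 (by linarith), ?_⟩
  intro F D ψ φ β h v hv hb
  rcases h.typ with h2 | ⟨α, hα, h2⟩
  · rw [h2 v] at hb
    exact le_max_of_le_left hb
  · by_contra hcon
    have hv1 : 1 - κ / 4 < ‖v‖ := (le_max_right _ _).trans_lt (not_le.1 hcon)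
    have hw := puc_sq hv
    have h3 := puc_idn α (v ^ 2)
    have h4 := puc_low α (v ^ 2) hα hw.le
    have h5 : 0 < ‖1 + (starRingEnd ℂ) α * v ^ 2‖ := by linarith
    rw [h2 v, norm_div, div_le_iff₀ h5] at hb
    have h6 : ‖v ^ 2 + α‖ ^ 2 ≤ ρ' ^ 2 * ‖1 + (starRingEnd ℂ) α * v ^ 2‖ ^ 2 := by
      rw [← mul_pow]
      exact pow_le_pow_left₀ (norm_nonneg _) hb 2
    have h7 : (1 - θ) ^ 2 ≤ ‖1 + (starRingEnd ℂ) α * v ^ 2‖ ^ 2 :=
      pow_le_pow_left₀ (by linarith) h4 2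
    have h8 : κ ≤ (1 - ρ' ^ 2) * ‖1 + (starRingEnd ℂ) α * v ^ 2‖ ^ 2 :=
      mul_le_mul_of_nonneg_left h7 (by linarith)
    have h9 : ‖v ^ 2‖ ^ 2 ≤ 1 := pow_le_one₀ (norm_nonneg _) hw.le
    have h10 : (1 - ‖v ^ 2‖ ^ 2) * (1 - ‖α‖ ^ 2) ≤ 1 - ‖v ^ 2‖ ^ 2 := by
      have e1 : 0 ≤ ‖α‖ ^ 2 := sq_nonneg _
      nlinarith
    have h11 : κ ≤ 1 - ‖v‖ ^ 4 := by
      have e1 : ‖v ^ 2‖ ^ 2 = ‖v‖ ^ 4 := by
        rw [norm_pow]
        ring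
      rw [e1] at h10 h3
      linarith
    have h12 : 1 - κ ≤ (1 - κ / 4) ^ 4 := by
      have e1 := one_add_mul_le_pow (show (-2 : ℝ) ≤ -(κ / 4) by linarith) 4
      push_cast at e1
      have e2 : 1 + -(κ / 4) = 1 - κ / 4 := by ring
      rw [e2] at e1
      linarith
    have h13 : (1 - κ / 4) ^ 4 < ‖v‖ ^ 4 := pow_lt_pow_left₀ hv1 (by linarith) (by norm_num)
    linarith

theorem bt_sur {F : ℂ → ℂ} {D : Set ℂ} {θ : ℝ} {ψ φ β : ℂ → ℂ} (hθ : 0 < θ) (hθ1 : θ < 1) (h : PU F D θ ψ φ β) {u : ℂ} (hu : ‖u‖ < 1) :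
    ∃ v : ℂ, ‖v‖ < 1 ∧ β v = u := by
  rcases h.typ with h1 | ⟨α, hα, h1⟩
  · exact ⟨u, hu, h1 u⟩
  · have hnα : ‖(-α : ℂ)‖ ≤ θ := by rw [norm_neg]; exact hα
    have h2 := puc_idn (-α) u
    have h3 := puc_low (-α) u hnα hu.le
    have h4 : 0 < ‖1 + (starRingEnd ℂ) (-α) * u‖ := by linarith
    have hne : 1 + (starRingEnd ℂ) (-α) * u ≠ 0 := norm_pos_iff.1 h4
    have hα1 : ‖α‖ < 1 := lt_of_le_of_lt hα hθ1
    have hne2 : 1 - (starRingEnd ℂ) α * α ≠ 0 := by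
      intro h0
      have e1 : (starRingEnd ℂ) α * α = 1 := by linear_combination -h0
      have e2 : ‖(starRingEnd ℂ) α * α‖ = 1 := by rw [e1, norm_one]
      rw [norm_mul, RCLike.norm_conj] at e2
      nlinarith [norm_nonneg α]
    obtain ⟨v, hv⟩ := IsAlgClosed.exists_pow_nat_eq ((u + -α) / (1 + (starRingEnd ℂ) (-α) * u))
      (n := 2) (by norm_num)
    have h5 : 0 < (1 - ‖u‖ ^ 2) * (1 - ‖(-α : ℂ)‖ ^ 2) := by
      apply mul_pos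
      · have := pow_lt_one₀ (norm_nonneg _) hu two_ne_zero
        linarith
      · have := pow_lt_one₀ (norm_nonneg (-α)) (lt_of_le_of_lt hnα hθ1) two_ne_zero
        linarith
    have h6 : ‖u + -α‖ < ‖1 + (starRingEnd ℂ) (-α) * u‖ := by
      refine lt_of_pow_lt_pow_left₀ 2 h4.le ?_
      linarith
    have h7 : ‖v‖ ^ 2 < 1 := by
      rw [← norm_pow, hv, norm_div, div_lt_one h4]
      exact h6
    have h8 : ‖v‖ < 1 := by
      by_contra hc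
      have := one_le_pow₀ (not_lt.1 hc) (n := 2)
      linarith
    refine ⟨v, h8, ?_⟩
    rw [h1 v, hv]
    rw [map_neg] at hne ⊢
    have hne3 : 1 + (starRingEnd ℂ) α * ((u + -α) / (1 + -(starRingEnd ℂ) α * u)) =
        (1 - (starRingEnd ℂ) α * α) / (1 + -(starRingEnd ℂ) α * u) := by
      rw [eq_div_iff hne, add_mul, one_mul, mul_assoc, div_mul_cancel₀ _ hne]
      ring
    have hne4 : (u + -α) / (1 + -(starRingEnd ℂ) α * u) + α =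
        u * (1 - (starRingEnd ℂ) α * α) / (1 + -(starRingEnd ℂ) α * u) := by
      rw [eq_div_iff hne, add_mul, div_mul_cancel₀ _ hne]
      ring
    rw [hne3, hne4, div_div_div_cancel_right₀ hne, mul_div_assoc, div_self hne2, mul_one]

/-- a connected set over a compact part of the disc which meets a pull back unit is contained in it -/
theorem pu_con {F : ℂ → ℂ} {D : Set ℂ} {θ : ℝ} {ψ φ β : ℂ → ℂ} (hθ : 0 < θ) (hθ1 : θ < 1) (hi : InjOn ψ (ball 0 1))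
    (h : PU F D θ ψ φ β) {K : Set ℂ} (hK : IsPreconnected K) {ρ' : ℝ} (h1 : ρ' < 1)
    (hF : ∀ s ∈ K, ∃ u : ℂ, ‖u‖ ≤ ρ' ∧ F s = ψ u) (hm : (K ∩ φ '' ball 0 1).Nonempty) : K ⊆ φ '' ball 0 1 := by
  obtain ⟨s0, hs0, hs0'⟩ := hm
  have hρ0 : 0 ≤ ρ' := by
    obtain ⟨u, hu, -⟩ := hF s0 hs0
    exact (norm_nonneg _).trans hu
  obtain ⟨ρ0, hρ00, hρ01, hbd⟩ := bt_bd hθ hθ1 hρ0 h1
  have hsub : closedBall (0 : ℂ) ρ0 ⊆ ball 0 1 := closedBall_subset_ball hρ01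
  have hO1 : IsOpen (φ '' ball 0 1) := uh_open isOpen_ball h.diff h.inj isOpen_ball (Subset.refl _)
  have hO2 : IsOpen (φ '' closedBall 0 ρ0)ᶜ :=
    (((isCompact_closedBall (0 : ℂ) ρ0).image_of_continuousOn
      (h.diff.continuousOn.mono hsub)).isClosed).isOpen_compl
  have hkey : ∀ s ∈ K, s ∈ φ '' ball 0 1 → s ∈ φ '' closedBall 0 ρ0 := by
    rintro s hs ⟨v, hv, rfl⟩
    obtain ⟨u, hu, hFu⟩ := hF _ hs
    have hv1 : ‖v‖ < 1 := mem_ball_zero_iff.1 hv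
    obtain ⟨-, h3⟩ := h.val v hv
    have h4 : β v = u := hi (mem_ball_zero_iff.2 (bt_lt hθ hθ1 h hv1))
      (mem_ball_zero_iff.2 (lt_of_le_of_lt hu h1)) (h3.symm.trans hFu)
    exact ⟨v, mem_closedBall_zero_iff.2 (hbd h v hv1 (by rw [h4]; exact hu)), rfl⟩
  have hcov : K ⊆ φ '' ball 0 1 ∪ (φ '' closedBall 0 ρ0)ᶜ := by
    intro s hs
    by_cases h3 : s ∈ φ '' closedBall 0 ρ0
    · exact Or.inl (image_mono hsub h3)
    · exact Or.inr h3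
  have hdis : K ∩ (φ '' ball 0 1 ∩ (φ '' closedBall 0 ρ0)ᶜ) = ∅ := by
    rw [eq_empty_iff_forall_notMem]
    rintro s ⟨hs, hs1, hs2⟩
    exact hs2 (hkey s hs hs1)
  rcases isPreconnected_iff_subset_of_disjoint.1 hK _ _ hO1 hO2 hcov hdis with h3 | h3
  · exact h3
  · exact absurd (hkey s0 hs0 hs0') (h3 hs0)

theorem pu_down {z : ℕ → ℂ} {k : ℕ → ℕ} {x R σ : ℕ → ℂ} {n : ℕ} (hR : R n ≠ 0) (hσ : σ n ≠ 0) {θ : ℝ} {ψ φ β : ℂ → ℂ}
    (h : PU (Fn f z k x R σ n) (Dn f U J δ z k σ n) θ ψ φ β) :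
    PU (f^[k n]) (dm f U J δ (k n)) θ (fun u => x n + R n * ψ u) (fun v => z n + σ n * φ v) β := by
  refine ⟨?_, ?_, ?_, h.typ⟩
  · exact (h.diff.const_mul (σ n)).const_add (z n)
  · intro a ha b hb hab
    have h1 : σ n * φ a = σ n * φ b := by
      have h2 : z n + σ n * φ a = z n + σ n * φ b := hab
      exact add_left_cancel h2
    exact h.inj ha hb (mul_left_cancel₀ hσ h1)
  · intro v hv
    obtain ⟨h1, h2⟩ := h.val v hv
    refine ⟨h1, ?_⟩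
    have h3 : (f^[k n] (z n + σ n * φ v) - x n) / R n = ψ (β v) := h2
    rw [div_eq_iff hR] at h3
    change f^[k n] (z n + σ n * φ v) = x n + R n * ψ (β v)
    linear_combination h3

theorem gd_down {x R : ℕ → ℂ} {n : ℕ} (hR : R n ≠ 0) {θ C : ℝ} {w : ℂ} {r : ℝ} {ψ : ℂ → ℂ} (h : GD θ C (Pn P x R n) w r ψ) :
    GD θ C P (x n + R n * w) (‖R n‖ * r) (fun u => x n + R n * ψ u) := by
  have hRn : 0 < ‖R n‖ := norm_pos_iff.2 hR
  refine ⟨?_, ?_, ?_, ?_, ?_⟩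
  · exact (h.diff.const_mul (R n)).const_add (x n)
  · intro a ha b hb hab
    have h1 : R n * ψ a = R n * ψ b := by
      have h2 : x n + R n * ψ a = x n + R n * ψ b := hab
      exact add_left_cancel h2
    exact h.inj ha hb (mul_left_cancel₀ hR h1)
  · intro y hy
    rw [mem_ball, dist_eq_norm] at hy
    have h1 : (y - x n) / R n ∈ ball w (r / C) := by
      rw [mem_ball, dist_eq_norm]
      have h2 : (y - x n) / R n - w = (y - (x n + R n * w)) / R n := by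
        field_simp
        ring
      rw [h2, norm_div, div_lt_iff₀ hRn]
      calc ‖y - (x n + R n * w)‖ < ‖R n‖ * r / C := hy
        _ = r / C * ‖R n‖ := by ring
    obtain ⟨u, hu, huy⟩ := h.inn h1
    refine ⟨u, hu, ?_⟩
    change x n + R n * ψ u = y
    rw [huy]
    field_simp
    ring
  · rintro _ ⟨u, hu, rfl⟩
    have h1 := h.out (mem_image_of_mem ψ hu)
    rw [mem_ball, dist_eq_norm] at h1 ⊢
    have h2 : x n + R n * ψ u - (x n + R n * w) = R n * (ψ u - w) := by ring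
    rw [h2, norm_mul]
    exact mul_lt_mul_of_pos_left h1 hRn
  · intro u hu1 hu2
    exact h.col u hu1 hu2

end Pool.Agent.H31.IN
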