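import Pool.Agent.H31.IN.Puc
import Pool.Agent.H56.UD.DA
import Pool.Agent.H43.UB.UM

/-!
# THEOREM UD, INI: pull backs over discs of a fixed small size shrink

PROOF of `shk`. The `φ k` are bounded on the unit disc (`PS.bd`: values in `dm f U J δ k ⊆ ball 0 R0`): `um` (`Pool.Agent.H43.UB`, with `S = ball 0 1`): `φ k → g` locally uniformly along `𝒰`, `g` holomorphic. Suppose `deriv g 0 ≠ 0`. Then `g` is injective (`uh_inj`). `v k → v0` along `𝒰` (`ul_ex`), `‖v0‖ ≤ ρ0 < 1`, `g v0 ∈ J` (`J` is closed, `φ k (v k) → g v0`).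
There is `t > 0` with `ball (g v0) t ⊆ φ k '' ball 0 1` for almost all `k`: otherwise (ultrafilter, `t = 1 / (k + 1)`) there are points `s k ∈ ball (g v0) (1 / (k + 1))`, `s k ∉ φ k '' ball 0 1` for almost all `k`; `s k → g v0`, contradiction to `uh_hit` (`g` is not locally constant: `uh_der`). [`𝒰 ≤ atTop` gives `1 / (k + 1) → 0`; or choose `t` by contradiction for every `t > 0` and use a diagonal choice `t k`; simplest: `S t = {k | ball (g v0) t ⊆ φ k '' ball 0 1}`, suppose no `S t` is in `𝒰`; choose `s k ∉ φ k '' ball 0 1` with `dist (s k) (g v0) ≤ 2 * infDist (g v0) (φ k '' ball 0 1)ᶜ` whenever the complement is not empty; then `s k → g v0` along `𝒰`.]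
`O = ball (g v0) t`: open, meets `J`. `PS.leo`: `N` with `J ⊆ f^[k] '' (O ∩ J)` for `k ≥ N`. Take `k ≥ N` (`𝒰 ≤ atTop`) with `O ⊆ φ k '' ball 0 1`: every point of `J` is `f^[k] (φ k v)`, so in `closedBall (y k) δ1`: `‖a - b‖ ≤ 2 δ1`: contradiction. So `deriv g 0 = 0` and `deriv (φ k) 0 → 0` (`TendstoLocallyUniformlyOn.deriv`).
-/

set_option autoImplicit false

open Filter Topology Metric Set MeasureTheory

namespace Pool.Agent.H31.IN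

open Pool.Agent.H56.UD Pool.Agent.H43.UB

variable {f : ℂ → ℂ} {U J P Cr E : Set ℂ} {δ b0 : ℝ} {η : ℂ → ℂ → ℂ} {ρ : ℝ} {X hh μ : ℂ → ℂ}

theorem shk (h : PS f U J P Cr δ η ρ) {𝒰 : Ultrafilter ℕ} (h𝒰 : (𝒰 : Filter ℕ) ≤ atTop) {δ1 ρ0 : ℝ} (hρ : ρ0 < 1)
    (hJ : ∃ a ∈ J, ∃ b ∈ J, 2 * δ1 < ‖a - b‖) {φ : ℕ → ℂ → ℂ} {y v : ℕ → ℂ}
    (hφ : ∀ᶠ k in (𝒰 : Filter ℕ), DifferentiableOn ℂ (φ k) (ball 0 1) ∧ InjOn (φ k) (ball 0 1) ∧
      ∀ u ∈ ball (0 : ℂ) 1, φ k u ∈ dm f U J δ k ∧ ‖f^[k] (φ k u) - y k‖ ≤ δ1)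
    (hv : ∀ᶠ k in (𝒰 : Filter ℕ), ‖v k‖ ≤ ρ0 ∧ φ k (v k) ∈ J) :
    Tendsto (fun k => deriv (φ k) 0) (𝒰 : Filter ℕ) (𝓝 0) := by
  obtain ⟨R0, hR0⟩ := h.bd
  have hd : ∀ᶠ k in (𝒰 : Filter ℕ), DifferentiableOn ℂ (φ k) (ball 0 1) := hφ.mono fun k hk => hk.1
  obtain ⟨g, hg, hlim⟩ := um 𝒰 (isOpen_ball (x := (0 : ℂ)) (ε := 1)) hd (fun u hu => by
    obtain ⟨r, hr, hrs⟩ := Metric.isOpen_iff.1 (isOpen_ball (x := (0 : ℂ)) (ε := 1)) u hu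
    refine ⟨r, R0, hr, hrs, ?_⟩
    filter_upwards [hφ] with k hk w hw
    have h1 := hR0 k (hk.2.2 w (hrs hw)).1
    exact (mem_ball_zero_iff.1 h1).le)
  have h0 : (0 : ℂ) ∈ ball (0 : ℂ) 1 := mem_ball_self one_pos
  have hder := (hlim.deriv hd isOpen_ball).tendsto_at h0
  suffices hz : deriv g 0 = 0 by
    rw [hz] at hder
    exact hder
  by_contra hne
  have hinj : InjOn g (ball 0 1) := uh_inj 𝒰 isOpen_ball (convex_ball _ _).isPreconnected hd hlim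
    (hφ.mono fun k hk => hk.2.1) ⟨0, h0, hne⟩
  obtain ⟨v0, hv0, hv0n⟩ := ul_ex 𝒰 (z := v) (M := ρ0) (hv.mono fun k hk => hk.1)
  have hv0b : v0 ∈ ball (0 : ℂ) 1 := mem_ball_zero_iff.2 (hv0n.trans_lt hρ)
  have hvw : Tendsto v (𝒰 : Filter ℕ) (𝓝[ball 0 1] v0) := by
    refine tendsto_nhdsWithin_iff.2 ⟨hv0, ?_⟩
    filter_upwards [hv] with k hk
    exact mem_ball_zero_iff.2 (hk.1.trans_lt hρ)
  have hφv : Tendsto (fun k => φ k (v k)) (𝒰 : Filter ℕ) (𝓝 (g v0)) :=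
    hlim.tendsto_comp (hg.continuousOn _ hv0b) hv0b hvw
  have hgJ : g v0 ∈ J := h.Jc.isClosed.mem_of_tendsto hφv (hv.mono fun k hk => hk.2)
  have hnc : ¬ ∀ᶠ u in 𝓝 v0, g u = g v0 := by
    intro hc
    have h8 : ∀ᶠ u in 𝓝[≠] v0, (g u = g v0 ∧ u ∈ ball (0 : ℂ) 1) ∧ u ≠ v0 :=
      ((hc.and (isOpen_ball.mem_nhds hv0b)).filter_mono nhdsWithin_le_nhds).and self_mem_nhdsWithin
    obtain ⟨u, ⟨hu1, hu2⟩, hu3⟩ := h8.exists
    exact hu3 (hinj hu2 hv0b hu1)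
  -- a disc which is covered by almost all images
  have hcov : ∃ t : ℝ, 0 < t ∧ ∀ᶠ k in (𝒰 : Filter ℕ), ball (g v0) t ⊆ φ k '' ball 0 1 := by
    by_contra hcon
    push Not at hcon
    have hcon2 : ∀ t : ℝ, 0 < t → ∀ᶠ k in (𝒰 : Filter ℕ), ¬ ball (g v0) t ⊆ φ k '' ball 0 1 :=
      fun t ht => hcon t ht
    have hex : ∀ k : ℕ, ∃ s : ℂ, ((φ k '' ball 0 1)ᶜ).Nonempty →
        s ∈ (φ k '' ball 0 1)ᶜ ∧ dist (g v0) s < infDist (g v0) (φ k '' ball 0 1)ᶜ + 1 / ((k : ℝ) + 1) := by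
      intro k
      by_cases hk : ((φ k '' ball 0 1)ᶜ).Nonempty
      · have h1 : infDist (g v0) (φ k '' ball 0 1)ᶜ < infDist (g v0) (φ k '' ball 0 1)ᶜ + 1 / ((k : ℝ) + 1) := by
          have : (0 : ℝ) < 1 / ((k : ℝ) + 1) := by positivity
          linarith
        obtain ⟨s, hs1, hs2⟩ := (infDist_lt_iff hk).1 h1
        exact ⟨s, fun _ => ⟨hs1, hs2⟩⟩
      · exact ⟨0, fun hc => absurd hc hk⟩
    choose s hs using hex
    have hsm : ∀ᶠ k in (𝒰 : Filter ℕ), s k ∉ φ k '' ball 0 1 := by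
      filter_upwards [hcon2 1 one_pos] with k hk
      obtain ⟨x, hx1, hx2⟩ := Set.not_subset.1 hk
      exact (hs k ⟨x, hx2⟩).1
    have hst : Tendsto s (𝒰 : Filter ℕ) (𝓝 (g v0)) := by
      rw [Metric.tendsto_nhds]
      intro ε hε
      have h1 : Tendsto (fun k : ℕ => 1 / ((k : ℝ) + 1)) (𝒰 : Filter ℕ) (𝓝 0) :=
        tendsto_one_div_add_atTop_nhds_zero_nat.mono_left h𝒰
      have h2 : ∀ᶠ k : ℕ in (𝒰 : Filter ℕ), 1 / ((k : ℝ) + 1) < ε / 2 := h1.eventually (gt_mem_nhds (by positivity))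
      filter_upwards [hcon2 (ε / 2) (by positivity), h2] with k hk hk2
      obtain ⟨x, hx1, hx2⟩ := Set.not_subset.1 hk
      have h3 := (hs k ⟨x, hx2⟩).2
      have h4 : infDist (g v0) (φ k '' ball 0 1)ᶜ ≤ dist (g v0) x := infDist_le_dist_of_mem hx2
      rw [mem_ball, dist_comm] at hx1
      rw [dist_comm]
      linarith
    have h5 := uh_hit 𝒰 isOpen_ball hd hlim hv0b hnc hst one_pos
    obtain ⟨k, hk1, hk2⟩ := (h5.and hsm).exists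
    obtain ⟨u, hu, he⟩ := hk1
    exact hk2 ⟨u, hu.2, he⟩
  obtain ⟨t, ht, hcov⟩ := hcov
  obtain ⟨N, hN⟩ := h.leo (ball (g v0) t) isOpen_ball ⟨g v0, mem_ball_self ht, hgJ⟩
  have hge : ∀ᶠ k in (𝒰 : Filter ℕ), N ≤ k := h𝒰 (eventually_ge_atTop N)
  obtain ⟨k, ⟨hk1, hk2⟩, hk3⟩ := ((hcov.and hφ).and hge).exists
  obtain ⟨a, ha, b, hb, hab⟩ := hJ
  have key : ∀ x ∈ J, ‖x - y k‖ ≤ δ1 := by
    intro x hx
    obtain ⟨z, hz, rfl⟩ := hN k hk3 hx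
    obtain ⟨u, hu, rfl⟩ := hk1 hz.1
    exact (hk2.2.2 u hu).2
  have h6 := key a ha
  have h7 := key b hb
  have h8 : ‖a - b‖ ≤ ‖a - y k‖ + ‖b - y k‖ := by
    have : a - b = (a - y k) - (b - y k) := by ring
    rw [this]
    exact norm_sub_le _ _
  linarith

end Pool.Agent.H31.IN
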