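import Pool.Agent.H31.IN.Frb

/-!
# THEOREM UD, INI: transfer of the component of the base point

`A L p = s1 L + lam L * p`, `A L k p = (z' L k - z) / σ k + (Rl L r k / deriv (f^[k]) (z' L k) / σ k) * p → A L p` (`Q2.st`, `Q2.lt`).
`loc`. Let `Gd (Wf 𝒰) .. w p`. `gb` (for `ls2`) at `(w, p)` with a radius `3 t`, `closedBall w (3 t)` disjoint from `Ph` (closed): `G n → g` on `ball w (3 t)`, bounded by `M'`, `g` injective, `g w = p`. Let `e > 0` with `closedBall p (2 e) ⊆ g '' ball w t` (open: `uh_open`). For almost all `n` (in `Wf 𝒰`): (i) `G n` is holomorphic on `ball w (3 t)`, `G n u ∈ D2 n`, `F2 n (G n u) = u`; (ii) `ball p e ⊆ G n '' ball w t` (otherwise there are bad points `p n → p' ∈ closedBall p e`, `p' = g u`, `uh_hit`: contradiction); (iii) `‖deriv (G n) u‖ ≤ M' / t` on `ball w t` (Cauchy) and `≥ m > 0` (`‖deriv (G n) w‖ → ‖deriv g w‖ ≠ 0`, `distort` on `ball w (2 t)`: `G n` is injective);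 (iv) `closedBall w (2 t)` is disjoint from `P2 n` (`ph_off`). By `ev_w`: for almost all `L` these hold for almost all `k` at `n = Nat.pair L k`. FIX such an `L` and `p' ∈ ball p e`. For almost all `k`: `p' = G n (u k)`, `u k ∈ ball w t`, so `p' ∈ D2 n`, `F2 n p' = u k`, `deriv (F2 n) p' = 1 / deriv (G n) (u k)`. By `rel`: with `s k = A L k p'`: `s k ∈ D1 k`, `F1 L k (s k) = u k`, and `deriv (F1 L k) (s k) * l k = deriv (F2 n) p'`, `l k → lam L ≠ 0` (chain rule for `rel`, or: `F1 L k` near `s k` is `F2 n` composed with the inverse affine map). `s k → A L p'`; `u k → u0 ∈ closedBall w t` (`ul_ex`), `u0 ∉ Ph 𝒰 (P1 .. L)` (`P1 L k = P2 n` is disjoint from `closedBall w (2 t)` for almost all `k`). So `Gd 𝒰 (F1 .. L) (D1 ..) (P1 .. L) u0 (A L p')`: `A L p' ∈ Sg`.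
`trf`. Let `s ∈ Sc2 := Sc (Wf 𝒰) .. 0`. `Sc2` is open and connected (`sc_open (ls2 ..)`), contains `0` (`gd2`) and `s`: a compact connected `K ⊆ Sc2` containing `0`, `s` (path connected). `loc` at the points of `K`: finitely many balls `ball p_i e_i` cover `K` (`IsCompact.elim_nhds_subcover`); `ε` with `ball s ε` in the ball of `loc` at `s`. For almost all `L`: `A L '' (K ∪ ball s ε) ⊆ Sg 𝒰 (F1 .. L) ..`, preconnected, contains `A L 0 = s1 L ∈ Sc .. (sb L)`: `sc_of`.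
-/

set_option autoImplicit false

open Filter Topology Metric Set MeasureTheory

namespace Pool.Agent.H31.IN

open Pool.Agent.H56.UD Pool.Agent.H43.UB

variable {f : ℂ → ℂ} {U J P Cr E : Set ℂ} {δ b0 : ℝ} {η : ℂ → ℂ → ℂ} {ρ : ℝ} {X hh μ : ℂ → ℂ} {𝒰 : Ultrafilter ℕ}
  {θ C r0 δ0 M ρ0 c0 : ℝ} {z : ℂ} {x σ v : ℕ → ℂ} {r : ℕ → ℝ} {χ φ β : ℕ → ℂ → ℂ} {w sb vs s1 lam : ℕ → ℂ} {z' : ℕ → ℕ → ℂ}

theorem loc (h : PS f U J P Cr δ η ρ) (hX : FX f U J E δ X hh μ b0) (hθ : 0 < θ) (hθ1 : θ < 1) (hC : 1 ≤ C) (hr0 : 0 < r0)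
    (hU : UG θ C r0 P) (b : Bs 𝒰 f U J P E δ θ C δ0 z x r σ M ρ0 χ φ β v)
    (b2 : B2 𝒰 f U J P E δ M z x r σ φ c0 w sb vs s1 lam z') {w' p : ℂ}
    (hg : Gd (Wf 𝒰) (F2 f x r z') (D2 f U J δ r z') (P2 P x r) w' p) :
    ∃ e : ℝ, 0 < e ∧ ∀ᶠ L in (𝒰 : Filter ℕ), ∀ p' ∈ ball p e,
      s1 L + lam L * p' ∈ Sg 𝒰 (F1 f z x r σ L) (D1 f U J δ z σ) (P1 P x r L) := by
  have ls := ls2 h hX hθ hθ1 hC hr0 hU b b2
  have hc : (Ph (Wf 𝒰) (P2 P x r))ᶜ ∈ 𝓝 w' := (ph_closed (𝒰 := Wf 𝒰) (P := P2 P x r)).isOpen_compl.mem_nhds hg.1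
  obtain ⟨T, hT, hTb⟩ := Metric.nhds_basis_closedBall.mem_iff.1 hc
  obtain ⟨t, ht⟩ : ∃ t : ℝ, t = T / 3 := ⟨_, rfl⟩
  have ht0 : 0 < t := by rw [ht]; positivity
  have hT3 : T = 3 * t := by rw [ht]; ring
  have hoff : Disjoint (closedBall w' (3 * t)) (Ph (Wf 𝒰) (P2 P x r)) := by
    rw [← hT3]
    exact Set.disjoint_left.2 fun y hy hy' => hTb hy hy'
  obtain ⟨G, g, hG, hlu, ⟨M', hM'⟩, hgd, hgi, hgw, -⟩ := gb ls hg (by positivity : 0 < 3 * t) hoff
  have hsub1 : ball w' t ⊆ ball w' (3 * t) := ball_subset_ball (by linarith)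
  have hgo : IsOpen (g '' ball w' t) := uh_open isOpen_ball hgd hgi isOpen_ball hsub1
  obtain ⟨e, he, heb⟩ := Metric.nhds_basis_closedBall.mem_iff.1
    (hgo.mem_nhds (⟨w', mem_ball_self ht0, hgw⟩ : p ∈ g '' ball w' t))
  have hGd : ∀ᶠ n in (Wf 𝒰 : Filter ℕ), DifferentiableOn ℂ (G n) (ball w' (3 * t)) := hG.mono fun n hn => hn.1
  -- (ii)
  have hii : ∀ᶠ n in (Wf 𝒰 : Filter ℕ), ball p e ⊆ G n '' ball w' t := by
    by_contra hcon
    have hcon2 : ∀ᶠ n in (Wf 𝒰 : Filter ℕ), ¬ ball p e ⊆ G n '' ball w' t := Ultrafilter.eventually_not.2 hcon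
    have hex : ∀ n, ∃ y : ℂ, ¬ ball p e ⊆ G n '' ball w' t → y ∈ ball p e ∧ y ∉ G n '' ball w' t := by
      intro n
      by_cases hn : ball p e ⊆ G n '' ball w' t
      · exact ⟨0, fun h1 => absurd hn h1⟩
      · obtain ⟨y, hy1, hy2⟩ := Set.not_subset.1 hn
        exact ⟨y, fun _ => ⟨hy1, hy2⟩⟩
    choose y hy using hex
    obtain ⟨p', hp', -⟩ := ul_ex (Wf 𝒰) (z := y) (M := ‖p‖ + e) (by
      filter_upwards [hcon2] with n hn
      have h1 := (hy n hn).1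
      rw [mem_ball, dist_eq_norm] at h1
      have h2 := norm_add_le (y n - p) p
      rw [sub_add_cancel] at h2
      linarith)
    have hpc : p' ∈ closedBall p e := by
      refine isClosed_closedBall.mem_of_tendsto hp' ?_
      filter_upwards [hcon2] with n hn
      exact ball_subset_closedBall (hy n hn).1
    obtain ⟨u, hu, hue⟩ := heb hpc
    obtain ⟨ε, hε, hεb⟩ := Metric.isOpen_iff.1 isOpen_ball u hu
    have hn : ¬ ∀ᶠ v in 𝓝 u, g v = g u := by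
      intro h1
      have h2 : deriv g u = deriv (fun _ => g u) u := Filter.EventuallyEq.deriv_eq h1
      rw [deriv_const] at h2
      exact uh_der isOpen_ball hgd hgi (hsub1 hu) h2
    have h3 := uh_hit (Wf 𝒰) isOpen_ball hGd hlu (hsub1 hu) hn (by rw [hue]; exact hp') hε
    obtain ⟨n, hn1, v', ⟨hv1, -⟩, hv3⟩ := (hcon2.and h3).exists
    exact (hy n hn1).2 ⟨v', hεb hv1, hv3⟩
  -- (iii)
  have hup : ∀ᶠ n in (Wf 𝒰 : Filter ℕ), ∀ u ∈ ball w' t, ‖deriv (G n) u‖ ≤ M' / t := by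
    filter_upwards [hGd, hM'] with n hn hnM u hu
    have hsub2 : closedBall u t ⊆ ball w' (3 * t) := by
      refine closedBall_subset_ball' ?_
      rw [mem_ball] at hu
      linarith
    exact Complex.norm_deriv_le_of_forall_mem_sphere_norm_le ht0
      (DifferentiableOn.diffContOnCl_ball (hn.mono hsub2) le_rfl)
      (fun y hy => hnM y (hsub2 (sphere_subset_closedBall hy)))
  have hd0 : deriv g w' ≠ 0 := uh_der isOpen_ball hgd hgi (mem_ball_self (by positivity))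
  have hdt : Tendsto (fun n => ‖deriv (G n) w'‖) (Wf 𝒰 : Filter ℕ) (𝓝 ‖deriv g w'‖) :=
    ((hlu.deriv hGd isOpen_ball).tendsto_at (mem_ball_self (by positivity))).norm
  have hd1 : 0 < ‖deriv g w'‖ := norm_pos_iff.2 hd0
  have hdl : ∀ᶠ n in (Wf 𝒰 : Filter ℕ), ‖deriv g w'‖ / 2 < ‖deriv (G n) w'‖ :=
    hdt.eventually (lt_mem_nhds (by linarith))
  have hKK := Pool.Agent.H80.AJ.KK_pos
  obtain ⟨m, hm⟩ : ∃ m : ℝ, m = ‖deriv g w'‖ / 2 / Pool.Agent.H80.AJ.KK := ⟨_, rfl⟩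
  have hm0 : 0 < m := by rw [hm]; positivity
  have hlo : ∀ᶠ n in (Wf 𝒰 : Filter ℕ), ∀ u ∈ ball w' t, m ≤ ‖deriv (G n) u‖ := by
    filter_upwards [hG, hdl] with n hn hnd u hu
    have hi : InjOn (G n) (ball w' (3 * t)) := by
      intro u1 hu1 u2 hu2 he12
      rw [← (hn.2 u1 hu1).2, ← (hn.2 u2 hu2).2, he12]
    have h1 := Pool.Agent.H80.AJ.distort (by positivity : 0 < 3 * t) hn.1 hi
      (mem_closedBall_self (by positivity)) (mem_closedBall.2 (by rw [mem_ball] at hu; linarith) :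
        u ∈ closedBall w' (3 * t / 2))
    rw [hm, div_le_iff₀ hKK]
    linarith
  -- (iv)
  have hiv : ∀ᶠ n in (Wf 𝒰 : Filter ℕ), Disjoint (closedBall w' (2 * t)) (P2 P x r n) :=
    ph_off (isCompact_closedBall _ _) (hoff.mono_left (closedBall_subset_closedBall (by linarith)))
  refine ⟨e, he, ?_⟩
  have hall := ev_w.1 (hG.and (hii.and (hup.and (hlo.and hiv))))
  filter_upwards [hall] with L hL p' hp'
  have hst := (b2.q L).st
  have hlt := (b2.q L).lt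
  have hl0 : 0 < ‖lam L‖ := norm_pos_iff.2 (b2.q L).l0
  have hex : ∀ k, ∃ u : ℂ, ball p e ⊆ G (Nat.pair L k) '' ball w' t → u ∈ ball w' t ∧ G (Nat.pair L k) u = p' := by
    intro k
    by_cases hk : ball p e ⊆ G (Nat.pair L k) '' ball w' t
    · obtain ⟨u, hu, hue⟩ := hk hp'
      exact ⟨u, fun _ => ⟨hu, hue⟩⟩
    · exact ⟨0, fun h1 => absurd h1 hk⟩
  choose u hu using hex
  obtain ⟨u0, hu0, -⟩ := ul_ex 𝒰 (z := u) (M := ‖w'‖ + t) (by
    filter_upwards [hL] with k hk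
    have h1 := (hu k hk.2.1).1
    rw [mem_ball, dist_eq_norm] at h1
    have h2 := norm_add_le (u k - w') w'
    rw [sub_add_cancel] at h2
    linarith)
  have hu0c : u0 ∈ closedBall w' t := by
    refine isClosed_closedBall.mem_of_tendsto hu0 ?_
    filter_upwards [hL] with k hk
    exact ball_subset_closedBall (hu k hk.2.1).1
  have hu0P : u0 ∉ Ph 𝒰 (P1 P x r L) := by
    intro hmem
    obtain ⟨k, hk1, y, hy1, hy2⟩ := (hL.and (hmem t ht0)).exists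
    have h1 : y ∈ closedBall w' (2 * t) := by
      rw [mem_closedBall] at hu0c ⊢
      rw [← dist_eq_norm] at hy2
      linarith [dist_triangle y u0 w']
    refine Set.disjoint_left.1 hk1.2.2.2.2 h1 ?_
    rw [(rel b z' L k 0).2.2]
    exact hy1
  have hl2 : ∀ᶠ k in (𝒰 : Filter ℕ), ‖lam L‖ / 2 < ‖Rl L r k / deriv (f^[k]) (z' L k) / σ k‖ ∧
      ‖Rl L r k / deriv (f^[k]) (z' L k) / σ k‖ < 2 * ‖lam L‖ :=
    (hlt.norm.eventually (lt_mem_nhds (by linarith))).and (hlt.norm.eventually (gt_mem_nhds (by linarith)))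
  refine ⟨u0, hu0P, max (2 * ‖lam L‖ * (M' / t)) (1 / (‖lam L‖ / 2 * m)),
    fun k => (z' L k - z) / σ k + Rl L r k / deriv (f^[k]) (z' L k) / σ k * p', ?_, ?_, ?_⟩
  · filter_upwards [hL, hl2] with k hk hlk
    obtain ⟨hk1, hk2, hk3, hk4, hk5⟩ := hk
    obtain ⟨hu1, hu2⟩ := hu k hk2
    have hGu := hk1.2 (u k) (hsub1 hu1)
    rw [hu2] at hGu
    have hrel := fun y => rel b z' L k y
    have hfun : F2 f x r z' (Nat.pair L k) = fun y => F1 f z x r σ L k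
        ((z' L k - z) / σ k + Rl L r k / deriv (f^[k]) (z' L k) / σ k * y) := funext fun y => (hrel y).1
    have hder : deriv (F2 f x r z' (Nat.pair L k)) p' = Rl L r k / deriv (f^[k]) (z' L k) / σ k *
        deriv (F1 f z x r σ L k) ((z' L k - z) / σ k + Rl L r k / deriv (f^[k]) (z' L k) / σ k * p') := by
      rw [hfun]
      have h1 := deriv_comp_mul_left (Rl L r k / deriv (f^[k]) (z' L k) / σ k)
        (fun y => F1 f z x r σ L k ((z' L k - z) / σ k + y)) p'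
      rw [deriv_comp_const_add] at h1
      simpa only [smul_eq_mul] using h1
    have hone : deriv (F2 f x r z' (Nat.pair L k)) p' * deriv (G (Nat.pair L k)) (u k) = 1 := by
      have h1 : HasDerivAt (F2 f x r z' (Nat.pair L k)) (deriv (F2 f x r z' (Nat.pair L k)) p')
          (G (Nat.pair L k) (u k)) := by
        rw [hu2]
        exact ((ls.Fd _).differentiableAt ((ls.Do _).mem_nhds hGu.1)).hasDerivAt
      have h2 : HasDerivAt (G (Nat.pair L k)) (deriv (G (Nat.pair L k)) (u k)) (u k) :=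
        (hk1.1.differentiableAt (isOpen_ball.mem_nhds (hsub1 hu1))).hasDerivAt
      have h3 := h1.comp (u k) h2
      have h4 : HasDerivAt (F2 f x r z' (Nat.pair L k) ∘ G (Nat.pair L k)) 1 (u k) := by
        refine (hasDerivAt_id (u k)).congr_of_eventuallyEq ?_
        filter_upwards [isOpen_ball.mem_nhds (hsub1 hu1)] with y hy
        exact (hk1.2 y hy).2
      exact h3.unique h4
    have hkey : ‖deriv (F1 f z x r σ L k) ((z' L k - z) / σ k + Rl L r k / deriv (f^[k]) (z' L k) / σ k * p')‖ *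
        (‖Rl L r k / deriv (f^[k]) (z' L k) / σ k‖ * ‖deriv (G (Nat.pair L k)) (u k)‖) = 1 := by
      have h1 := congrArg norm hone
      rw [hder, norm_mul, norm_mul, norm_one] at h1
      rw [← h1]
      ring
    obtain ⟨d, hd⟩ : ∃ d : ℝ, d = ‖deriv (F1 f z x r σ L k)
        ((z' L k - z) / σ k + Rl L r k / deriv (f^[k]) (z' L k) / σ k * p')‖ := ⟨_, rfl⟩
    obtain ⟨l, hl⟩ : ∃ l : ℝ, l = ‖Rl L r k / deriv (f^[k]) (z' L k) / σ k‖ := ⟨_, rfl⟩
    obtain ⟨g', hg'⟩ : ∃ g' : ℝ, g' = ‖deriv (G (Nat.pair L k)) (u k)‖ := ⟨_, rfl⟩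
    have hgu := hk3 (u k) hu1
    have hgl := hk4 (u k) hu1
    have hd0' : 0 ≤ d := by rw [hd]; exact norm_nonneg _
    rw [← hd, ← hl, ← hg'] at hkey
    rw [← hl] at hlk
    rw [← hg'] at hgu hgl
    refine ⟨?_, ?_, ?_⟩
    · refine ((hrel p').2.1).1 ?_
      exact hGu.1
    · show 1 ≤ max (2 * ‖lam L‖ * (M' / t)) (1 / (‖lam L‖ / 2 * m)) * ‖deriv (F1 f z x r σ L k) _‖
      rw [← hd]
      have h5 : l * g' ≤ 2 * ‖lam L‖ * (M' / t) :=
        mul_le_mul hlk.2.le hgu (by linarith) (by positivity)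
      calc (1 : ℝ) = l * g' * d := by rw [← hkey]; ring
        _ ≤ 2 * ‖lam L‖ * (M' / t) * d := mul_le_mul_of_nonneg_right h5 hd0'
        _ ≤ _ := mul_le_mul_of_nonneg_right (le_max_left _ _) hd0'
    · show ‖deriv (F1 f z x r σ L k) _‖ ≤ max (2 * ‖lam L‖ * (M' / t)) (1 / (‖lam L‖ / 2 * m))
      rw [← hd]
      have h5 : ‖lam L‖ / 2 * m ≤ l * g' :=
        mul_le_mul hlk.1.le hgl hm0.le (by linarith)
      refine le_trans ?_ (le_max_right _ _)
      rw [le_div_iff₀ (by positivity)]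
      calc d * (‖lam L‖ / 2 * m) ≤ d * (l * g') := mul_le_mul_of_nonneg_left h5 hd0'
        _ = 1 := hkey
  · exact hst.add (hlt.mul_const p')
  · refine hu0.congr' ?_
    filter_upwards [hL] with k hk
    have h1 := (hu k hk.2.1)
    have h2 := (hk.1.2 (u k) (hsub1 h1.1)).2
    rw [h1.2, (rel b z' L k p').1] at h2
    exact h2.symm

theorem trf (h : PS f U J P Cr δ η ρ) (hX : FX f U J E δ X hh μ b0) (hθ : 0 < θ) (hθ1 : θ < 1) (hC : 1 ≤ C) (hr0 : 0 < r0)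
    (hU : UG θ C r0 P) (b : Bs 𝒰 f U J P E δ θ C δ0 z x r σ M ρ0 χ φ β v)
    (b2 : B2 𝒰 f U J P E δ M z x r σ φ c0 w sb vs s1 lam z') {s : ℂ}
    (hs : s ∈ Sc (Wf 𝒰) (F2 f x r z') (D2 f U J δ r z') (P2 P x r) 0) :
    ∃ e : ℝ, 0 < e ∧ ∀ᶠ L in (𝒰 : Filter ℕ), ∀ p' ∈ ball s e,
      s1 L + lam L * p' ∈ Sc 𝒰 (F1 f z x r σ L) (D1 f U J δ z σ) (P1 P x r L) (sb L) := by
  have ls := ls2 h hX hθ hθ1 hC hr0 hU b b2
  obtain ⟨b', hb'⟩ := gd2 h b b2
  have h0 : (0 : ℂ) ∈ Sc (Wf 𝒰) (F2 f x r z') (D2 f U J δ r z') (P2 P x r) 0 :=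
    mem_connectedComponentIn (show (0 : ℂ) ∈ Sg (Wf 𝒰) (F2 f x r z') (D2 f U J δ r z') (P2 P x r) from ⟨b', hb'⟩)
  have hpc : IsPathConnected (Sc (Wf 𝒰) (F2 f x r z') (D2 f U J δ r z') (P2 P x r) 0) :=
    (sc_open ls 0).isConnected_iff_isPathConnected.1 ⟨⟨0, h0⟩, isPreconnected_connectedComponentIn⟩
  have hj : JoinedIn (Sc (Wf 𝒰) (F2 f x r z') (D2 f U J δ r z') (P2 P x r) 0) 0 s := hpc.joinedIn 0 h0 s hs
  obtain ⟨K, hK⟩ : ∃ K : Set ℂ, K = Set.range hj.somePath := ⟨_, rfl⟩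
  have hKc : IsCompact K := by rw [hK]; exact isCompact_range hj.somePath.continuous
  have hKp : IsPreconnected K := by rw [hK]; exact isPreconnected_range hj.somePath.continuous
  have hK0 : (0 : ℂ) ∈ K := by rw [hK]; exact ⟨0, hj.somePath.source⟩
  have hKs : s ∈ K := by rw [hK]; exact ⟨1, hj.somePath.target⟩
  have hKSc : K ⊆ Sg (Wf 𝒰) (F2 f x r z') (D2 f U J δ r z') (P2 P x r) := by
    rw [hK]
    rintro _ ⟨t, rfl⟩
    exact sc_sub 0 (hj.somePath_mem t)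
  have hcov : ∀ᶠ L in (𝒰 : Filter ℕ), ∀ p' ∈ K,
      s1 L + lam L * p' ∈ Sg 𝒰 (F1 f z x r σ L) (D1 f U J δ z σ) (P1 P x r L) := by
    refine hKc.induction_on (p := fun S => ∀ᶠ L in (𝒰 : Filter ℕ), ∀ p' ∈ S,
      s1 L + lam L * p' ∈ Sg 𝒰 (F1 f z x r σ L) (D1 f U J δ z σ) (P1 P x r L)) ?_ ?_ ?_ ?_
    · exact Eventually.of_forall fun L p' hp' => absurd hp' (Set.notMem_empty _)
    · intro S T hST hT
      exact hT.mono fun L hL p' hp' => hL p' (hST hp')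
    · intro S T hS hT
      filter_upwards [hS, hT] with L h1 h2 p' hp'
      exact hp'.elim (h1 p') (h2 p')
    · intro y hy
      obtain ⟨w', hw'⟩ := hKSc hy
      obtain ⟨e, he, hev⟩ := loc h hX hθ hθ1 hC hr0 hU b b2 hw'
      exact ⟨ball y e, mem_nhdsWithin_of_mem_nhds (ball_mem_nhds y he), hev⟩
  obtain ⟨w', hw'⟩ := hKSc hKs
  obtain ⟨e, he, hev⟩ := loc h hX hθ hθ1 hC hr0 hU b b2 hw'
  refine ⟨e, he, ?_⟩
  filter_upwards [hcov, hev] with L h1 h2 p' hp'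
  have hcont : Continuous (fun y : ℂ => s1 L + lam L * y) := by fun_prop
  have hT : IsPreconnected ((fun y : ℂ => s1 L + lam L * y) '' (K ∪ ball s e)) :=
    (IsPreconnected.union s hKs (mem_ball_self he) hKp (convex_ball _ _).isPreconnected).image _ hcont.continuousOn
  have hTs : (fun y : ℂ => s1 L + lam L * y) '' (K ∪ ball s e) ⊆
      Sg 𝒰 (F1 f z x r σ L) (D1 f U J δ z σ) (P1 P x r L) := by
    rintro _ ⟨y, hy, rfl⟩
    exact hy.elim (h1 y) (h2 y)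
  have hm : ((fun y : ℂ => s1 L + lam L * y) '' (K ∪ ball s e) ∩
      Sc 𝒰 (F1 f z x r σ L) (D1 f U J δ z σ) (P1 P x r L) (sb L)).Nonempty := by
    refine ⟨s1 L, ⟨0, Or.inl hK0, ?_⟩, (b2.q L).sm⟩
    show s1 L + lam L * 0 = s1 L
    rw [mul_zero, add_zero]
  exact sc_of hT hTs hm ⟨p', Or.inr hp', rfl⟩

end Pool.Agent.H31.IN
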